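import Pool.Agent.H559R11.AM.Defs

/-!
# Degree of functions on the cube: closure properties
-/

namespace AMaj

variable {ι κ : Type} [Fintype ι] [Fintype κ] {D E : ℕ} {f g : (ι → Bool) → ℝ}

theorem DegLE.mono_deg (h : DegLE D f) (hDE : D ≤ E) : DegLE E f := by
  unfold DegLE at h ⊢
  refine Submodule.span_mono ?_ h
  rintro g ⟨S, hS, rfl⟩
  exact ⟨S, hS.trans hDE, rfl⟩

theorem DegLE.of_mono (S : Finset ι) : DegLE S.card (mono S) :=
  Submodule.subset_span ⟨S, le_rfl, rfl⟩

theorem DegLE.add (hf : DegLE D f) (hg : DegLE D g) : DegLE D (fun x => f x + g x) :=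
  Submodule.add_mem _ hf hg

theorem DegLE.sub (hf : DegLE D f) (hg : DegLE D g) : DegLE D (fun x => f x - g x) :=
  Submodule.sub_mem _ hf hg

theorem DegLE.const_mul (c : ℝ) (hf : DegLE D f) : DegLE D (fun x => c * f x) :=
  Submodule.smul_mem _ c hf

theorem DegLE.const (D : ℕ) (c : ℝ) : DegLE D (fun _ : ι → Bool => c) := by
  have h := ((DegLE.of_mono (∅ : Finset ι)).mono_deg (Nat.zero_le D)).const_mul c
  simpa [mono] using h

theorem DegLE.ind (i : ι) : DegLE 1 (fun x : ι → Bool => if x i then (1 : ℝ) else 0) := by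
  have h := DegLE.of_mono ({i} : Finset ι)
  rw [Finset.card_singleton] at h
  refine (congrArg (DegLE 1) (funext fun x => ?_)).mp h
  simp [mono]

theorem DegLE.sum {α : Type} (s : Finset α) {F : α → (ι → Bool) → ℝ}
    (h : ∀ a ∈ s, DegLE D (F a)) : DegLE D (fun x => ∑ a ∈ s, F a x) := by
  have h1 : (fun x => ∑ a ∈ s, F a x) = ∑ a ∈ s, F a := by
    funext x
    rw [Finset.sum_apply]
  rw [h1]
  exact Submodule.sum_mem _ h

open Classical in
theorem alg_mono_mul (S T : Finset ι) (x : ι → Bool) :
    mono S x * mono T x = mono (S ∪ T) x := by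
  unfold mono
  rw [Finset.prod_ite_zero, Finset.prod_ite_zero, Finset.prod_ite_zero]
  simp only [Finset.prod_const_one]
  by_cases h1 : ∀ i ∈ S, x i = true
  · by_cases h2 : ∀ i ∈ T, x i = true
    · have h3 : ∀ i ∈ S ∪ T, x i = true := by
        intro i hi
        rcases Finset.mem_union.1 hi with h | h
        · exact h1 i h
        · exact h2 i h
      rw [if_pos h1, if_pos h2, if_pos h3, one_mul]
    · have h3 : ¬ ∀ i ∈ S ∪ T, x i = true := fun h =>
        h2 fun i hi => h i (Finset.mem_union_right _ hi)
      rw [if_neg h2, if_neg h3, mul_zero]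
  · have h3 : ¬ ∀ i ∈ S ∪ T, x i = true := fun h =>
      h1 fun i hi => h i (Finset.mem_union_left _ hi)
    rw [if_neg h1, if_neg h3, zero_mul]

theorem DegLE.mul (hf : DegLE D f) (hg : DegLE E g) : DegLE (D + E) (fun x => f x * g x) := by
  classical
  refine Submodule.span_induction (p := fun f _ => DegLE (D + E) (fun x => f x * g x))
    ?_ ?_ ?_ ?_ hf
  · rintro f ⟨S, hS, rfl⟩
    refine Submodule.span_induction (p := fun g _ => DegLE (D + E) (fun x => mono S x * g x))
      ?_ ?_ ?_ ?_ hg
    · rintro g ⟨T, hT, rfl⟩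
      have h1 : (fun x => mono S x * mono T x) = mono (S ∪ T) :=
        funext fun x => alg_mono_mul S T x
      rw [h1]
      exact (DegLE.of_mono _).mono_deg ((Finset.card_union_le _ _).trans (Nat.add_le_add hS hT))
    · have h := DegLE.const (ι := ι) (D + E) 0
      simpa using h
    · intro u v _ _ hu hv
      have h := hu.add hv
      refine (congrArg (DegLE (D + E)) (funext fun x => ?_)).mp h
      simp only [Pi.add_apply]
      ring
    · intro c u _ hu
      have h := hu.const_mul c
      refine (congrArg (DegLE (D + E)) (funext fun x => ?_)).mp h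
      simp only [Pi.smul_apply, smul_eq_mul]
      ring
  · have h := DegLE.const (ι := ι) (D + E) 0
    simpa using h
  · intro u v _ _ hu hv
    have h := hu.add hv
    refine (congrArg (DegLE (D + E)) (funext fun x => ?_)).mp h
    simp only [Pi.add_apply]
    ring
  · intro c u _ hu
    have h := hu.const_mul c
    refine (congrArg (DegLE (D + E)) (funext fun x => ?_)).mp h
    simp only [Pi.smul_apply, smul_eq_mul]
    ring

theorem DegLE.prod {α : Type} (s : Finset α) {F : α → (ι → Bool) → ℝ} {d : α → ℕ}
    (h : ∀ a ∈ s, DegLE (d a) (F a)) : DegLE (∑ a ∈ s, d a) (fun x => ∏ a ∈ s, F a x) := by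
  classical
  induction s using Finset.induction_on with
  | empty => simpa using DegLE.const (ι := ι) 0 1
  | insert a s ha ih =>
    have h1 := (h a (Finset.mem_insert_self a s)).mul
      (ih fun b hb => h b (Finset.mem_insert_of_mem hb))
    rw [Finset.sum_insert ha]
    refine (congrArg (DegLE _) (funext fun x => ?_)).mp h1
    rw [Finset.prod_insert ha]

theorem DegLE.pow (hf : DegLE D f) (k : ℕ) : DegLE (k * D) (fun x => f x ^ k) := by
  induction k with
  | zero => simpa using DegLE.const (ι := ι) 0 1
  | succ k ih =>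
    have h := ih.mul hf
    rw [Nat.succ_mul]
    refine (congrArg (DegLE _) (funext fun x => ?_)).mp h
    rw [pow_succ]

theorem DegLE.poly (q : Polynomial ℝ) (hf : DegLE D f) :
    DegLE (q.natDegree * D) (fun x => q.eval (f x)) := by
  have h := DegLE.sum (D := q.natDegree * D) (Finset.range (q.natDegree + 1))
    (F := fun i x => q.coeff i * f x ^ i) (fun i hi => by
      have h1 : i ≤ q.natDegree := Nat.lt_succ_iff.1 (Finset.mem_range.1 hi)
      exact ((hf.pow i).mono_deg (Nat.mul_le_mul_right D h1)).const_mul _)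
  refine (congrArg (DegLE _) (funext fun x => ?_)).mp h
  rw [Polynomial.eval_eq_sum_range]

/-- every function has degree at most the number of variables -/
theorem DegLE.all (f : (ι → Bool) → ℝ) : DegLE (Fintype.card ι) f := by
  classical
  have h1 : ∀ b : ι → Bool, DegLE (Fintype.card ι)
      (fun x : ι → Bool => f b * ∏ i, (if b i then (if x i then (1 : ℝ) else 0)
        else 1 - (if x i then (1 : ℝ) else 0))) := by
    intro b
    refine DegLE.const_mul _ ?_
    have h2 := DegLE.prod (ι := ι) (Finset.univ : Finset ι) (d := fun _ => 1)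
      (F := fun i x => (if b i then (if x i then (1 : ℝ) else 0)
        else 1 - (if x i then (1 : ℝ) else 0))) (fun i _ => by
          by_cases hb : b i = true
          · simpa [hb] using DegLE.ind i
          · simpa [hb] using (DegLE.const (ι := ι) 1 1).sub (DegLE.ind i))
    rw [Finset.sum_const, smul_eq_mul, mul_one, Finset.card_univ] at h2
    exact h2
  have h3 := DegLE.sum (Finset.univ : Finset (ι → Bool)) (fun b _ => h1 b)
  refine (congrArg (DegLE _) (funext fun x => ?_)).mp h3
  rw [Finset.sum_eq_single x]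
  · have h4 : ∏ i, (if x i then (if x i then (1 : ℝ) else 0)
        else 1 - (if x i then (1 : ℝ) else 0)) = 1 := by
      apply Finset.prod_eq_one
      intro i _
      by_cases hx : x i = true
      · simp [hx]
      · simp [hx]
    rw [h4, mul_one]
  · intro b _ hb
    obtain ⟨i, hi⟩ : ∃ i, b i ≠ x i := by
      by_contra hcon
      push Not at hcon
      exact hb (funext hcon)
    have h4 : ∏ i, (if b i then (if x i then (1 : ℝ) else 0)
        else 1 - (if x i then (1 : ℝ) else 0)) = 0 := by
      apply Finset.prod_eq_zero (Finset.mem_univ i)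
      cases hb' : b i <;> cases hx' : x i <;> simp_all
    rw [h4, mul_zero]
  · intro h
    exact absurd (Finset.mem_univ x) h

/-- substitution of variables and constants for the variables -/
theorem DegLE.subst {h : (κ → Bool) → ℝ} (hh : DegLE D h) (σ : κ → (ι → Bool) → Bool)
    (hσ : ∀ k, (∃ i, ∀ x, σ k x = x i) ∨ (∃ b, ∀ x, σ k x = b)) :
    DegLE D (fun x : ι → Bool => h (fun k => σ k x)) := by
  refine Submodule.span_induction
    (p := fun h _ => DegLE D (fun x : ι → Bool => h (fun k => σ k x))) ?_ ?_ ?_ ?_ hh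
  · rintro h ⟨S, hS, rfl⟩
    have h2 := DegLE.prod (ι := ι) S (d := fun _ => 1)
      (F := fun k x => (if σ k x then (1 : ℝ) else 0)) (fun k _ => by
        rcases hσ k with ⟨i, hi⟩ | ⟨b, hb⟩
        · simpa [hi] using DegLE.ind i
        · simpa [hb] using DegLE.const (ι := ι) 1 (if b then (1 : ℝ) else 0))
    rw [Finset.sum_const, smul_eq_mul, mul_one] at h2
    exact h2.mono_deg hS
  · exact DegLE.const (ι := ι) D 0
  · intro u v _ _ hu hv
    exact hu.add hv
  · intro c u _ hu
    exact hu.const_mul c

theorem DegLE.dens : DegLE 1 (dens : (ι → Bool) → ℝ) := by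
  have h := (DegLE.sum (Finset.univ : Finset ι) (fun i _ => DegLE.ind i)).const_mul
    ((Fintype.card ι : ℝ)⁻¹)
  refine (congrArg (DegLE 1) (funext fun x => ?_)).mp h
  unfold AMaj.dens
  rw [div_eq_inv_mul]

end AMaj
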