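import Pool.Agent.H559R11.AM.Defs

/-!
# The amplifying polynomial
-/

namespace AMaj

open Finset Polynomial

/-- The binomial tail polynomial. -/
noncomputable def ampQ (m : ℕ) : Polynomial ℝ :=
  ∑ j ∈ Ico (m + 1) (2 * m + 2), C (((2 * m + 1).choose j : ℕ) : ℝ) * X ^ j * (1 - X) ^ (2 * m + 1 - j)

/-- The terms of the binomial expansion. -/
noncomputable def ampT (m : ℕ) (t : ℝ) (j : ℕ) : ℝ :=
  (((2 * m + 1).choose j : ℕ) : ℝ) * t ^ j * (1 - t) ^ (2 * m + 1 - j)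

theorem ampQ_eval (m : ℕ) (t : ℝ) :
    (ampQ m).eval t = ∑ j ∈ Ico (m + 1) (2 * m + 2), ampT m t j := by
  unfold ampQ ampT
  rw [eval_finsetSum]
  exact Finset.sum_congr rfl fun j _ => by simp

theorem ampQ_deg (m : ℕ) : (ampQ m).natDegree ≤ 2 * m + 1 := by
  unfold ampQ
  apply natDegree_sum_le_of_forall_le
  intro j hj
  rw [Finset.mem_Ico] at hj
  refine (natDegree_mul_le).trans ?_
  have h1 : (C (((2 * m + 1).choose j : ℕ) : ℝ) * X ^ j).natDegree ≤ j :=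
    natDegree_C_mul_X_pow_le _ _
  have h2 : ((1 - X : Polynomial ℝ) ^ (2 * m + 1 - j)).natDegree ≤ 2 * m + 1 - j := by
    refine natDegree_pow_le.trans ?_
    have h3 : (1 - X : Polynomial ℝ).natDegree ≤ 1 := by
      refine (natDegree_sub_le _ _).trans ?_
      simp
    calc (2 * m + 1 - j) * (1 - X : Polynomial ℝ).natDegree ≤ (2 * m + 1 - j) * 1 :=
          Nat.mul_le_mul_left _ h3
      _ = 2 * m + 1 - j := mul_one _
  omega

theorem ampT_nonneg (m : ℕ) {t : ℝ} (h0 : 0 ≤ t) (h1 : t ≤ 1) (j : ℕ) : 0 ≤ ampT m t j := by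
  unfold ampT
  have : 0 ≤ 1 - t := by linarith
  positivity

theorem ampT_sum (m : ℕ) (t : ℝ) : ∑ j ∈ range (2 * m + 2), ampT m t j = 1 := by
  have h := add_pow t (1 - t) (2 * m + 1)
  rw [show t + (1 - t) = 1 by ring, one_pow] at h
  rw [h]
  exact Finset.sum_congr rfl fun j _ => by unfold ampT; ring

theorem amp_split (m : ℕ) (t : ℝ) :
    ∑ j ∈ range (m + 1), ampT m t j + (ampQ m).eval t = 1 := by
  rw [ampQ_eval, ← ampT_sum m t, Finset.range_eq_Ico, Finset.range_eq_Ico]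
  exact Finset.sum_Ico_consecutive _ (by omega) (by omega)

theorem amp_choose (m : ℕ) (s : Finset ℕ) (hs : s ⊆ range (2 * m + 2)) :
    ∑ j ∈ s, (((2 * m + 1).choose j : ℕ) : ℝ) ≤ 2 ^ (2 * m + 1) := by
  have h := Nat.sum_range_choose (2 * m + 1)
  have h2 : ∑ j ∈ range (2 * m + 2), (((2 * m + 1).choose j : ℕ) : ℝ) = 2 ^ (2 * m + 1) := by
    exact_mod_cast h
  rw [← h2]
  exact Finset.sum_le_sum_of_subset_of_nonneg hs fun _ _ _ => Nat.cast_nonneg _

/-- The numerical bound. -/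
theorem amp_num (m : ℕ) {a : ℝ} (h0 : 0 ≤ a) (h1 : a ≤ 1 / 3) :
    2 ^ (2 * m + 1) * (a ^ (m + 1) * (1 - a) ^ m) ≤ 2 / 3 * (8 / 9 : ℝ) ^ m := by
  have e : 2 ^ (2 * m + 1) * (a ^ (m + 1) * (1 - a) ^ m) = 2 * a * (4 * (a * (1 - a))) ^ m := by
    rw [mul_pow, mul_pow, pow_succ, pow_mul, pow_succ a]
    norm_num
    ring
  rw [e]
  have h2 : 4 * (a * (1 - a)) ≤ 8 / 9 := by nlinarith
  have h3 : 0 ≤ 4 * (a * (1 - a)) := by
    have : 0 ≤ 1 - a := by linarith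
    positivity
  have h4 : (4 * (a * (1 - a))) ^ m ≤ (8 / 9 : ℝ) ^ m := pow_le_pow_left₀ h3 h2 m
  have h5 : 2 * a ≤ 2 / 3 := by linarith
  exact mul_le_mul h5 h4 (by positivity) (by norm_num)

theorem amp_term {a b : ℝ} (h0 : 0 ≤ a) (hab : a ≤ b) {m i : ℕ} (hi : i ≤ m) :
    a ^ (m + 1 + i) * b ^ (m - i) ≤ a ^ (m + 1) * b ^ m := by
  have hb : 0 ≤ b := h0.trans hab
  have e1 : b ^ m = b ^ i * b ^ (m - i) := by rw [← pow_add]; congr 1; omega
  have e2 : a ^ (m + 1 + i) = a ^ (m + 1) * a ^ i := pow_add _ _ _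
  rw [e1, e2, mul_assoc]
  apply mul_le_mul_of_nonneg_left _ (pow_nonneg h0 _)
  exact mul_le_mul_of_nonneg_right (pow_le_pow_left₀ h0 hab i) (pow_nonneg hb _)

theorem amp_low (m : ℕ) {t : ℝ} (h0 : 0 ≤ t) (h1 : t ≤ 1 / 3) :
    (ampQ m).eval t ≤ 2 / 3 * (8 / 9 : ℝ) ^ m := by
  rw [ampQ_eval]
  refine le_trans ?_ (amp_num m h0 h1)
  have hM : 0 ≤ t ^ (m + 1) * (1 - t) ^ m := by
    have : 0 ≤ 1 - t := by linarith
    positivity
  calc ∑ j ∈ Ico (m + 1) (2 * m + 2), ampT m t j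
      ≤ ∑ j ∈ Ico (m + 1) (2 * m + 2),
        (((2 * m + 1).choose j : ℕ) : ℝ) * (t ^ (m + 1) * (1 - t) ^ m) := by
        apply Finset.sum_le_sum
        intro j hj
        rw [Finset.mem_Ico] at hj
        obtain ⟨i, rfl⟩ : ∃ i, j = m + 1 + i := ⟨j - (m + 1), by omega⟩
        unfold ampT
        rw [mul_assoc]
        apply mul_le_mul_of_nonneg_left _ (Nat.cast_nonneg _)
        have e : 2 * m + 1 - (m + 1 + i) = m - i := by omega
        rw [e]
        exact amp_term h0 (by linarith) (by omega)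
    _ = (∑ j ∈ Ico (m + 1) (2 * m + 2), (((2 * m + 1).choose j : ℕ) : ℝ)) *
          (t ^ (m + 1) * (1 - t) ^ m) := by rw [Finset.sum_mul]
    _ ≤ _ := by
        apply mul_le_mul_of_nonneg_right _ hM
        apply amp_choose
        intro j hj
        rw [Finset.mem_Ico] at hj
        rw [Finset.mem_range]
        omega

theorem amp_high (m : ℕ) {t : ℝ} (h0 : 2 / 3 ≤ t) (h1 : t ≤ 1) :
    ∑ j ∈ range (m + 1), ampT m t j ≤ 2 / 3 * (8 / 9 : ℝ) ^ m := by
  have ha0 : 0 ≤ 1 - t := by linarith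
  refine le_trans ?_ (amp_num m ha0 (by linarith))
  have hM : 0 ≤ (1 - t) ^ (m + 1) * (1 - (1 - t)) ^ m := by
    have : 0 ≤ 1 - (1 - t) := by linarith
    positivity
  calc ∑ j ∈ range (m + 1), ampT m t j
      ≤ ∑ j ∈ range (m + 1),
        (((2 * m + 1).choose j : ℕ) : ℝ) * ((1 - t) ^ (m + 1) * (1 - (1 - t)) ^ m) := by
        apply Finset.sum_le_sum
        intro j hj
        rw [Finset.mem_range] at hj
        unfold ampT
        rw [mul_assoc]
        apply mul_le_mul_of_nonneg_left _ (Nat.cast_nonneg _)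
        have e : 2 * m + 1 - j = m + 1 + (m - j) := by omega
        have e2 : m - (m - j) = j := by omega
        have h3 := amp_term ha0 (b := t) (by linarith) (m := m) (i := m - j) (by omega)
        rw [e2] at h3
        rw [e, show 1 - (1 - t) = t by ring, mul_comm (t ^ j)]
        exact h3
    _ = (∑ j ∈ range (m + 1), (((2 * m + 1).choose j : ℕ) : ℝ)) *
          ((1 - t) ^ (m + 1) * (1 - (1 - t)) ^ m) := by rw [Finset.sum_mul]
    _ ≤ _ := by
        apply mul_le_mul_of_nonneg_right _ hM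
        apply amp_choose
        intro j hj
        rw [Finset.mem_range] at hj ⊢
        omega

theorem amp_final (L : ℕ) : 2 / 3 * (8 / 9 : ℝ) ^ (6 * L + 26) ≤ 1 / (20 * 2 ^ L) := by
  have h1 : (8 / 9 : ℝ) ^ (6 * L) ≤ (1 / 2) ^ L := by
    rw [pow_mul]
    exact pow_le_pow_left₀ (by norm_num) (by norm_num) L
  have h2 : 2 / 3 * (8 / 9 : ℝ) ^ 26 ≤ 1 / 20 := by norm_num
  calc 2 / 3 * (8 / 9 : ℝ) ^ (6 * L + 26) = (8 / 9 : ℝ) ^ (6 * L) * (2 / 3 * (8 / 9 : ℝ) ^ 26) := by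
        rw [pow_add]; ring
    _ ≤ (1 / 2) ^ L * (1 / 20) := mul_le_mul h1 h2 (by positivity) (by positivity)
    _ = 1 / (20 * 2 ^ L) := by
        rw [one_div_pow]
        field_simp

theorem exists_amp (L : ℕ) : ∃ q : Polynomial ℝ, q.natDegree ≤ 12 * L + 53 ∧
    (∀ t : ℝ, 0 ≤ t → t ≤ 1 → 0 ≤ q.eval t ∧ q.eval t ≤ 1) ∧
    (∀ t : ℝ, 0 ≤ t → t ≤ 1 / 3 → q.eval t ≤ 1 / (20 * 2 ^ L)) ∧
    (∀ t : ℝ, 2 / 3 ≤ t → t ≤ 1 → 1 - 1 / (20 * 2 ^ L) ≤ q.eval t) := by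
  refine ⟨ampQ (6 * L + 26), (ampQ_deg _).trans (by omega), ?_, ?_, ?_⟩
  · intro t h0 h1
    constructor
    · rw [ampQ_eval]
      exact Finset.sum_nonneg fun j _ => ampT_nonneg _ h0 h1 j
    · have h := amp_split (6 * L + 26) t
      have h2 : 0 ≤ ∑ j ∈ range (6 * L + 26 + 1), ampT (6 * L + 26) t j :=
        Finset.sum_nonneg fun j _ => ampT_nonneg _ h0 h1 j
      linarith
  · intro t h0 h1
    exact (amp_low _ h0 h1).trans (amp_final L)
  · intro t h0 h1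
    have h := amp_split (6 * L + 26) t
    have h2 := (amp_high (6 * L + 26) h0 h1).trans (amp_final L)
    linarith

end AMaj
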