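import Pool.Agent.H559R11.AM.Alg

/-!
# Products of Bernstein polynomials
-/

namespace AMaj

theorem bern_nonneg_aux (R k : ℕ) {t : ℝ} (h0 : 0 ≤ t) (h1 : t ≤ 1) : 0 ≤ bern R k t := by
  unfold bern
  have h2 : 0 ≤ 1 - t := by linarith
  positivity

theorem bern_eq_eval_aux (R k : ℕ) (t : ℝ) :
    bern R k t = (bernsteinPolynomial ℝ R k).eval t := by
  unfold bern bernsteinPolynomial
  simp

theorem sum_bern_aux (R : ℕ) (t : ℝ) : ∑ k : Fin (R + 1), bern R (k : ℕ) t = 1 := by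
  rw [Fin.sum_univ_eq_sum_range (fun k => bern R k t) (R + 1)]
  have h := add_pow t (1 - t) R
  rw [add_sub_cancel, one_pow] at h
  rw [h]
  refine Finset.sum_congr rfl fun k _ => ?_
  unfold bern
  ring

theorem var_bern_aux (R : ℕ) (hR : 0 < R) (t : ℝ) :
    ∑ k : Fin (R + 1), bern R (k : ℕ) t * (((k : ℕ) : ℝ) / R - t) ^ 2 = t * (1 - t) / R := by
  rw [Fin.sum_univ_eq_sum_range (fun k => bern R k t * ((k : ℝ) / R - t) ^ 2) (R + 1)]
  have h := congrArg (Polynomial.eval t) (bernsteinPolynomial.variance ℝ R)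
  rw [Polynomial.eval_finsetSum] at h
  have hR' : (R : ℝ) ≠ 0 := by positivity
  have h2 : ∑ k ∈ Finset.range (R + 1), bern R k t * ((k : ℝ) / R - t) ^ 2 =
      (∑ k ∈ Finset.range (R + 1), Polynomial.eval t
        ((R • Polynomial.X - (k : Polynomial ℝ)) ^ 2 * bernsteinPolynomial ℝ R k)) / (R : ℝ) ^ 2 := by
    rw [Finset.sum_div]
    refine Finset.sum_congr rfl fun k _ => ?_
    rw [Polynomial.eval_mul, ← bern_eq_eval_aux]
    simp
    field_simp
    ring
  rw [h2, h]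
  simp
  field_simp

theorem sum_prod_aux {κ : Type} [Fintype κ] [DecidableEq κ] (R : ℕ)
    (F : κ → Fin (R + 1) → ℝ) :
    ∑ k : κ → Fin (R + 1), ∏ i, F i (k i) = ∏ i, ∑ l : Fin (R + 1), F i l := by
  rw [Finset.prod_univ_sum, Fintype.piFinset_univ]

theorem wt_nonneg {κ : Type} [Fintype κ] (R : ℕ) (k : κ → Fin (R + 1)) {y : κ → ℝ}
    (hy : ∀ i, 0 ≤ y i ∧ y i ≤ 1) : 0 ≤ wt R k y := by
  unfold wt
  exact Finset.prod_nonneg fun i _ => bern_nonneg_aux R (k i) (hy i).1 (hy i).2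

theorem sum_wt {κ : Type} [Fintype κ] [DecidableEq κ] (R : ℕ) (y : κ → ℝ) :
    ∑ k : κ → Fin (R + 1), wt R k y = 1 := by
  unfold wt
  rw [sum_prod_aux R (fun i l => bern R (l : ℕ) (y i))]
  exact Finset.prod_eq_one fun i _ => sum_bern_aux R (y i)

theorem sum_wt_var_aux {κ : Type} [Fintype κ] [DecidableEq κ] (R : ℕ) (hR : 0 < R) (y : κ → ℝ)
    (i : κ) : ∑ k : κ → Fin (R + 1), wt R k y * (((k i : ℕ) : ℝ) / R - y i) ^ 2 =
      y i * (1 - y i) / R := by
  have h1 : ∀ k : κ → Fin (R + 1), wt R k y * (((k i : ℕ) : ℝ) / R - y i) ^ 2 =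
      ∏ j, (bern R (k j : ℕ) (y j) * (if j = i then (((k j : ℕ) : ℝ) / R - y j) ^ 2 else 1)) := by
    intro k
    unfold wt
    rw [Finset.prod_mul_distrib, Finset.prod_ite_eq' Finset.univ i]
    simp
  rw [Finset.sum_congr rfl fun k _ => h1 k,
    sum_prod_aux R (fun j l => bern R (l : ℕ) (y j) *
      (if j = i then (((l : ℕ) : ℝ) / R - y j) ^ 2 else 1)),
    Finset.prod_eq_single i]
  · simp only [if_true]
    exact var_bern_aux R hR (y i)
  · intro j _ hj
    simp only [if_neg hj, mul_one]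
    exact sum_bern_aux R (y j)
  · intro h
    exact absurd (Finset.mem_univ i) h

theorem sum_wt_bad {κ : Type} [Fintype κ] [DecidableEq κ] (R : ℕ) (hR : 0 < R) {y : κ → ℝ}
    (hy : ∀ i, 0 ≤ y i ∧ y i ≤ 1) (δ : ℝ) (hδ : 0 < δ)
    (G : (κ → Fin (R + 1)) → Prop) [DecidablePred G]
    (hG : ∀ k, (∀ i, |((k i : ℕ) : ℝ) / R - y i| ≤ δ) → G k) :
    ∑ k : κ → Fin (R + 1), (if G k then 0 else wt R k y) ≤ (Fintype.card κ : ℝ) / (4 * R * δ ^ 2) := by
  have hRpos : (0 : ℝ) < R := by exact_mod_cast hR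
  have h1 : ∀ k : κ → Fin (R + 1), (if G k then 0 else wt R k y) ≤
      ∑ i, wt R k y * (((k i : ℕ) : ℝ) / R - y i) ^ 2 / δ ^ 2 := by
    intro k
    have hw := wt_nonneg R k hy
    have hnn : ∀ i, 0 ≤ wt R k y * (((k i : ℕ) : ℝ) / R - y i) ^ 2 / δ ^ 2 := fun i => by positivity
    by_cases hk : G k
    · rw [if_pos hk]
      exact Finset.sum_nonneg fun i _ => hnn i
    · rw [if_neg hk]
      have h2 : ∃ i, δ < |((k i : ℕ) : ℝ) / R - y i| := by
        by_contra hcon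
        push Not at hcon
        exact hk (hG k hcon)
      obtain ⟨i, hi⟩ := h2
      refine le_trans ?_ (Finset.single_le_sum (fun j _ => hnn j) (Finset.mem_univ i))
      have h3 : δ ^ 2 ≤ (((k i : ℕ) : ℝ) / R - y i) ^ 2 := by
        rw [← sq_abs (((k i : ℕ) : ℝ) / R - y i)]
        exact pow_le_pow_left₀ hδ.le hi.le 2
      rw [le_div_iff₀ (by positivity)]
      exact mul_le_mul_of_nonneg_left h3 hw
  have hterm : ∀ i, ∑ k : κ → Fin (R + 1), wt R k y * (((k i : ℕ) : ℝ) / R - y i) ^ 2 / δ ^ 2 ≤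
      1 / (4 * R * δ ^ 2) := by
    intro i
    rw [← Finset.sum_div, sum_wt_var_aux R hR y i, div_div]
    have h4 : y i * (1 - y i) ≤ 1 / 4 := by nlinarith [sq_nonneg (y i - 1 / 2)]
    calc y i * (1 - y i) / (R * δ ^ 2) ≤ (1 / 4) / (R * δ ^ 2) := by gcongr
      _ = 1 / (4 * R * δ ^ 2) := by field_simp
  calc ∑ k : κ → Fin (R + 1), (if G k then 0 else wt R k y)
      ≤ ∑ k : κ → Fin (R + 1), ∑ i, wt R k y * (((k i : ℕ) : ℝ) / R - y i) ^ 2 / δ ^ 2 :=
        Finset.sum_le_sum fun k _ => h1 k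
    _ = ∑ i, ∑ k : κ → Fin (R + 1), wt R k y * (((k i : ℕ) : ℝ) / R - y i) ^ 2 / δ ^ 2 :=
        Finset.sum_comm
    _ ≤ ∑ _i : κ, 1 / (4 * R * δ ^ 2) := Finset.sum_le_sum fun i _ => hterm i
    _ = (Fintype.card κ : ℝ) / (4 * R * δ ^ 2) := by
        rw [Finset.sum_const, Finset.card_univ, nsmul_eq_mul]
        ring

/-- the degree of the weights, when the `y i` are functions of degree at most `1` on the cube -/
theorem DegLE.wt {ι κ : Type} [Fintype ι] [Fintype κ] (R : ℕ) (k : κ → Fin (R + 1))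
    (y : κ → (ι → Bool) → ℝ) (hy : ∀ i, DegLE 1 (y i)) :
    DegLE (Fintype.card κ * R) (fun x => wt R k (fun i => y i x)) := by
  have h1 : ∀ i ∈ (Finset.univ : Finset κ), DegLE R (fun x => bern R (k i : ℕ) (y i x)) := by
    intro i _
    set q : Polynomial ℝ := bernsteinPolynomial ℝ R (k i : ℕ) with hq
    have h2 := DegLE.poly q (hy i)
    have h3 : (fun x => q.eval (y i x)) = fun x => bern R (k i : ℕ) (y i x) := by
      funext x
      rw [bern_eq_eval_aux, hq]
    rw [h3] at h2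
    refine h2.mono_deg ?_
    rw [mul_one, hq]
    unfold bernsteinPolynomial
    have hk : (k i : ℕ) ≤ R := Nat.lt_succ_iff.1 (k i).2
    have hd1 : ((1 : Polynomial ℝ) - Polynomial.X).natDegree ≤ 1 :=
      (Polynomial.natDegree_sub_le _ _).trans (by simp)
    calc (((R.choose (k i : ℕ) : ℕ) : Polynomial ℝ) * Polynomial.X ^ (k i : ℕ) *
          (1 - Polynomial.X) ^ (R - (k i : ℕ))).natDegree
        ≤ (((R.choose (k i : ℕ) : ℕ) : Polynomial ℝ) * Polynomial.X ^ (k i : ℕ)).natDegree +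
          ((1 - Polynomial.X : Polynomial ℝ) ^ (R - (k i : ℕ))).natDegree :=
          Polynomial.natDegree_mul_le
      _ ≤ (k i : ℕ) + (R - (k i : ℕ)) * 1 := by
          refine Nat.add_le_add ?_ ?_
          · refine Polynomial.natDegree_mul_le.trans ?_
            rw [Polynomial.natDegree_natCast, Polynomial.natDegree_X_pow, zero_add]
          · exact Polynomial.natDegree_pow_le.trans (Nat.mul_le_mul_left _ hd1)
      _ = R := by omega
  have h4 := DegLE.prod Finset.univ h1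
  rw [Finset.sum_const, Finset.card_univ, smul_eq_mul] at h4
  exact h4

end AMaj
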