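import Pool.Agent.H559R11.AM.Alg

/-!
# The two ways to write the cube and the degree
-/

namespace AMaj

/-- the character of the cube -/
noncomputable def Br_chi {n : ℕ} (S : Finset (Fin n)) (x : Fin n → ℤˣ) : ℝ :=
  ∏ i ∈ S, (((x i : ℤ)) : ℝ)

theorem Br_unit (a b : ℤˣ) : 1 + (((a : ℤ)) : ℝ) * (((b : ℤ)) : ℝ) = if a = b then 2 else 0 := by
  rcases Int.units_eq_one_or a with rfl | rfl <;> rcases Int.units_eq_one_or b with rfl | rfl
  · norm_num
  · have : ¬ ((1 : ℤˣ) = -1) := by decide
    rw [if_neg this]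
    norm_num
  · have : ¬ ((-1 : ℤˣ) = 1) := by decide
    rw [if_neg this]
    norm_num
  · norm_num

theorem Br_orth {n : ℕ} (x y : Fin n → ℤˣ) :
    ∑ S : Finset (Fin n), Br_chi S x * Br_chi S y = if x = y then 2 ^ n else 0 := by
  classical
  have h1 : ∏ i : Fin n, (1 + (((x i : ℤ)) : ℝ) * (((y i : ℤ)) : ℝ)) =
      ∑ S : Finset (Fin n), Br_chi S x * Br_chi S y := by
    rw [Finset.prod_one_add, Finset.powerset_univ]
    refine Finset.sum_congr rfl fun S _ => ?_
    unfold Br_chi
    rw [Finset.prod_mul_distrib]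
  rw [← h1]
  by_cases hxy : x = y
  · rw [if_pos hxy, hxy]
    have h2 : ∀ i : Fin n, 1 + (((y i : ℤ)) : ℝ) * (((y i : ℤ)) : ℝ) = 2 := by
      intro i
      rw [Br_unit, if_pos rfl]
    rw [Finset.prod_congr rfl fun i _ => h2 i]
    simp
  · rw [if_neg hxy]
    obtain ⟨i, hi⟩ := Function.ne_iff.1 hxy
    apply Finset.prod_eq_zero (Finset.mem_univ i)
    rw [Br_unit, if_neg hi]

theorem Br_inv {n : ℕ} (f : (Fin n → ℤˣ) → ℝ) (x : Fin n → ℤˣ) :
    f x = ∑ S : Finset (Fin n), fhat f S * Br_chi S x := by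
  classical
  have h1 : ∀ S : Finset (Fin n), fhat f S * Br_chi S x =
      (∑ y, f y * (Br_chi S y * Br_chi S x)) / 2 ^ n := by
    intro S
    unfold fhat
    rw [div_mul_eq_mul_div, Finset.sum_mul]
    congr 1
    refine Finset.sum_congr rfl fun y _ => ?_
    unfold Br_chi
    ring
  rw [Finset.sum_congr rfl fun S _ => h1 S, ← Finset.sum_div, Finset.sum_comm]
  have h2 : ∀ y, ∑ S : Finset (Fin n), f y * (Br_chi S y * Br_chi S x) =
      if y = x then f y * 2 ^ n else 0 := by
    intro y
    rw [← Finset.mul_sum, Br_orth]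
    split_ifs <;> simp
  rw [Finset.sum_congr rfl fun y _ => h2 y, Finset.sum_ite_eq' Finset.univ x]
  simp

theorem degLE_of_degree {n : ℕ} (f : (Fin n → ℤˣ) → ℝ) :
    DegLE (degree f) (fun b : Fin n → Bool => f (fun i => if b i then 1 else -1)) := by
  classical
  have h1 : (fun b : Fin n → Bool => f (fun i => if b i then 1 else -1)) =
      fun b => ∑ S : Finset (Fin n), fhat f S * Br_chi S (fun i => if b i then 1 else -1) := by
    funext b
    exact Br_inv f _
  rw [h1]
  apply DegLE.sum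
  intro S _
  by_cases h0 : fhat f S = 0
  · simp only [h0, zero_mul]
    exact DegLE.const _ 0
  apply DegLE.const_mul
  have h2 : S.card ≤ degree f := by
    unfold degree
    exact Finset.le_sup (f := Finset.card) (Finset.mem_filter.2 ⟨Finset.mem_univ _, h0⟩)
  have h3 : DegLE (∑ i ∈ S, 1) (fun b : Fin n → Bool =>
      ∏ i ∈ S, (2 * (if b i then (1 : ℝ) else 0) - 1)) := by
    apply DegLE.prod
    intro i _
    exact ((DegLE.ind i).const_mul 2).sub (DegLE.const 1 1)
  have h4 : (fun b : Fin n → Bool => Br_chi S (fun i => if b i then 1 else -1)) =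
      fun b : Fin n → Bool => ∏ i ∈ S, (2 * (if b i then (1 : ℝ) else 0) - 1) := by
    funext b
    unfold Br_chi
    refine Finset.prod_congr rfl fun i _ => ?_
    by_cases hb : b i = true
    · simp only [hb, if_true]
      norm_num
    · simp only [hb]
      norm_num
  rw [h4]
  apply DegLE.mono_deg h3
  simpa using h2

theorem Br_fhat_mono {n : ℕ} (T S : Finset (Fin n)) (h : T.card < S.card) :
    fhat (fun x : Fin n → ℤˣ => mono T (fun i => decide (x i = 1))) S = 0 := by
  classical
  obtain ⟨i, hiS, hiT⟩ : ∃ i ∈ S, i ∉ T := by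
    by_contra hne
    push Not at hne
    exact absurd (Finset.card_le_card hne) (by omega)
  unfold fhat
  have h1 : ∑ x : Fin n → ℤˣ, mono T (fun i => decide (x i = 1)) * ∏ i ∈ S, (((x i : ℤ)) : ℝ) =
      - ∑ x : Fin n → ℤˣ, mono T (fun i => decide (x i = 1)) * ∏ i ∈ S, (((x i : ℤ)) : ℝ) := by
    rw [← Finset.sum_neg_distrib]
    refine Fintype.sum_equiv (Equiv.mulLeft (Pi.mulSingle i (-1) : Fin n → ℤˣ)) _ _ fun x => ?_
    have h2 : ∀ j, (Equiv.mulLeft (Pi.mulSingle i (-1) : Fin n → ℤˣ)) x j =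
        if j = i then - x j else x j := by
      intro j
      change (Pi.mulSingle i (-1) : Fin n → ℤˣ) j * x j = _
      rw [Pi.mulSingle_apply]
      split_ifs <;> simp
    have h3 : mono T (fun j => decide ((Equiv.mulLeft (Pi.mulSingle i (-1) : Fin n → ℤˣ)) x j = 1)) =
        mono T (fun j => decide (x j = 1)) := by
      unfold mono
      refine Finset.prod_congr rfl fun j hj => ?_
      have hji : j ≠ i := fun e => hiT (e ▸ hj)
      beta_reduce
      rw [h2, if_neg hji]
    have h4 : ∏ j ∈ S, ((((Equiv.mulLeft (Pi.mulSingle i (-1) : Fin n → ℤˣ)) x j : ℤˣ) : ℤ) : ℝ) =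
        - ∏ j ∈ S, (((x j : ℤ)) : ℝ) := by
      rw [← Finset.mul_prod_erase S _ hiS, ← Finset.mul_prod_erase S (fun j => (((x j : ℤ)) : ℝ)) hiS]
      rw [h2, if_pos rfl, ← neg_mul]
      congr 1
      · push_cast
        ring
      · refine Finset.prod_congr rfl fun j hj => ?_
        rw [h2, if_neg (Finset.ne_of_mem_erase hj)]
    rw [h3, h4]
    ring
  have h5 : ∑ x : Fin n → ℤˣ, mono T (fun i => decide (x i = 1)) *
      ∏ i ∈ S, (((x i : ℤ)) : ℝ) = 0 := by linarith
  rw [h5, zero_div]

theorem degree_le {n D : ℕ} (p : (Fin n → Bool) → ℝ) (hp : DegLE D p) :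
    degree (fun x : Fin n → ℤˣ => p (fun i => decide (x i = 1))) ≤ D := by
  classical
  have key : ∀ S : Finset (Fin n), D < S.card →
      fhat (fun x : Fin n → ℤˣ => p (fun i => decide (x i = 1))) S = 0 := by
    intro S hS
    unfold DegLE at hp
    induction hp using Submodule.span_induction with
    | mem g hg =>
      obtain ⟨T, hT, rfl⟩ := hg
      exact Br_fhat_mono T S (by omega)
    | zero =>
      unfold fhat
      simp
    | add g g' _ _ h1 h2 =>
      unfold fhat at h1 h2 ⊢
      simp only [Pi.add_apply, add_mul, Finset.sum_add_distrib, add_div]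
      rw [h1, h2, add_zero]
    | smul c g _ h1 =>
      unfold fhat at h1 ⊢
      simp only [Pi.smul_apply, smul_eq_mul, mul_assoc, ← Finset.mul_sum, mul_div_assoc]
      rw [h1, mul_zero]
  unfold degree
  apply Finset.sup_le
  intro S hS
  rw [Finset.mem_filter] at hS
  by_contra hlt
  push Not at hlt
  exact hS.2 (key S hlt)

end AMaj
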