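import Pool.Agent.H559R11.AM.Defs

/-!
# A Chebyshev polynomial
-/

namespace AMaj

/-- the value of the `k`-th Chebyshev polynomial at `x` -/
noncomputable def chebT (k : ℕ) (x : ℝ) : ℝ := (Polynomial.Chebyshev.T ℝ (k : ℤ)).eval x

theorem chebT_zero (x : ℝ) : chebT 0 x = 1 := by
  unfold chebT
  simp

theorem chebT_one (x : ℝ) : chebT 1 x = x := by
  unfold chebT
  simp

theorem chebT_add_two (k : ℕ) (x : ℝ) : chebT (k + 2) x = 2 * x * chebT (k + 1) x - chebT k x := by
  unfold chebT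
  push_cast
  rw [Polynomial.Chebyshev.T_add_two]
  simp

theorem chebT_grow (k : ℕ) (x : ℝ) (hx : 1 ≤ x) : 1 ≤ chebT k x ∧
    (2 * k + 1) * (x - 1) ≤ chebT (k + 1) x - chebT k x := by
  induction k with
  | zero =>
    rw [chebT_zero, zero_add, chebT_one]
    push_cast
    constructor <;> linarith
  | succ k ih =>
    obtain ⟨h1, h2⟩ := ih
    have h3 : 0 ≤ (2 * (k : ℝ) + 1) * (x - 1) := by
      apply mul_nonneg
      · positivity
      · linarith
    have h4 : 1 ≤ chebT (k + 1) x := by linarith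
    refine ⟨h4, ?_⟩
    rw [show k + 1 + 1 = k + 2 from rfl, chebT_add_two]
    push_cast
    nlinarith

theorem chebT_ge (k : ℕ) (x : ℝ) (hx : 1 ≤ x) : 1 + (k : ℝ) ^ 2 * (x - 1) ≤ chebT k x := by
  induction k with
  | zero =>
    rw [chebT_zero]
    simp
  | succ k ih =>
    have h := (chebT_grow k x hx).2
    push_cast
    nlinarith

theorem chebT_mono (k : ℕ) (x y : ℝ) (hx : 1 ≤ x) (hxy : x ≤ y) :
    chebT k x ≤ chebT k y ∧
      chebT (k + 1) x - chebT k x ≤ chebT (k + 1) y - chebT k y := by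
  induction k with
  | zero =>
    rw [chebT_zero, chebT_zero, zero_add, chebT_one, chebT_one]
    constructor <;> linarith
  | succ k ih =>
    obtain ⟨h1, h2⟩ := ih
    have h3 := (chebT_grow (k + 1) x hx).1
    have h4 : chebT (k + 1) x ≤ chebT (k + 1) y := by linarith
    refine ⟨h4, ?_⟩
    rw [show k + 1 + 1 = k + 2 from rfl, chebT_add_two, chebT_add_two]
    have h5 : (x - 1) * chebT (k + 1) x ≤ (y - 1) * chebT (k + 1) y :=
      mul_le_mul (by linarith) h4 (by linarith) (by linarith)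
    linarith

theorem exists_cheb (γ : ℝ) (h0 : 0 < γ) (h1 : γ ≤ 1 / 2) (r : ℕ) (hr : 9 ≤ (r : ℝ) ^ 2 * γ) :
    ∃ s : Polynomial ℝ, s.natDegree ≤ r ∧ s.eval 1 = 1 ∧
      (∀ t : ℝ, 0 ≤ t → t ≤ 1 → |s.eval t| ≤ 1) ∧
      (∀ t : ℝ, 0 ≤ t → t ≤ 1 - γ → |s.eval t| ≤ 1 / 10) := by
  obtain ⟨x0, hx0⟩ : ∃ x0 : ℝ, x0 = 1 / (1 - γ) := ⟨_, rfl⟩
  have hg : 0 < 1 - γ := by linarith
  have hx0g : x0 * (1 - γ) = 1 := by
    rw [hx0]
    field_simp
  have hx1 : 1 + γ ≤ x0 := by
    rw [hx0, le_div_iff₀ hg]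
    nlinarith
  have hT : 10 ≤ chebT r x0 := by
    have h2 := chebT_ge r x0 (by linarith)
    have h3 : (r : ℝ) ^ 2 * γ ≤ (r : ℝ) ^ 2 * (x0 - 1) :=
      mul_le_mul_of_nonneg_left (by linarith) (by positivity)
    linarith
  have hTpos : 0 < chebT r x0 := by linarith
  obtain ⟨s, hs⟩ : ∃ s : Polynomial ℝ, s = Polynomial.C (1 / chebT r x0) *
      (Polynomial.Chebyshev.T ℝ (r : ℤ)).comp (Polynomial.C x0 * Polynomial.X) := ⟨_, rfl⟩
  have hev : ∀ t, s.eval t = chebT r (x0 * t) / chebT r x0 := by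
    intro t
    rw [hs, Polynomial.eval_mul, Polynomial.eval_C, Polynomial.eval_comp, Polynomial.eval_mul,
      Polynomial.eval_C, Polynomial.eval_X]
    unfold chebT
    ring
  have hsmall : ∀ t : ℝ, 0 ≤ t → t ≤ 1 - γ → |s.eval t| ≤ 1 / 10 := by
    intro t ht0 ht1
    rw [hev, abs_div, abs_of_pos hTpos, div_le_iff₀ hTpos]
    have h2 : |x0 * t| ≤ 1 := by
      rw [abs_of_nonneg (mul_nonneg (by linarith) ht0), ← hx0g]
      exact mul_le_mul_of_nonneg_left ht1 (by linarith)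
    have h3 : |chebT r (x0 * t)| ≤ 1 := Polynomial.Chebyshev.abs_eval_T_real_le_one (r : ℤ) h2
    linarith
  refine ⟨s, ?_, ?_, ?_, hsmall⟩
  · rw [hs]
    refine (Polynomial.natDegree_C_mul_le _ _).trans ?_
    refine Polynomial.natDegree_comp_le.trans ?_
    rw [Polynomial.Chebyshev.natDegree_T, Int.natAbs_natCast]
    calc r * (Polynomial.C x0 * Polynomial.X).natDegree ≤ r * 1 :=
          Nat.mul_le_mul_left _ ((Polynomial.natDegree_C_mul_le _ _).trans
            Polynomial.natDegree_X_le)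
      _ = r := mul_one r
  · rw [hev, mul_one, div_self hTpos.ne']
  · intro t ht0 ht1
    by_cases h : t ≤ 1 - γ
    · exact (hsmall t ht0 h).trans (by norm_num)
    · push Not at h
      have h2 : 1 ≤ x0 * t := by
        rw [← hx0g]
        exact mul_le_mul_of_nonneg_left h.le (by linarith)
      have h3 : x0 * t ≤ x0 := by nlinarith
      have h4 := (chebT_mono r (x0 * t) x0 h2 h3).1
      have h5 := (chebT_grow r (x0 * t) h2).1
      rw [hev, abs_div, abs_of_pos hTpos, div_le_iff₀ hTpos, abs_of_nonneg (by linarith)]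
      linarith

end AMaj
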