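import Mathlib

/-!
# Degree of approximate majority functions: definitions
-/

namespace AMaj

/-- the monomial `∏_{i ∈ S} x_i` on the cube `{0,1}^ι` -/
noncomputable def mono {ι : Type} [Fintype ι] (S : Finset ι) (x : ι → Bool) : ℝ :=
  ∏ i ∈ S, (if x i then (1 : ℝ) else 0)

/-- `f` is a real linear combination of monomials of degree at most `D` -/
def DegLE {ι : Type} [Fintype ι] (D : ℕ) (f : (ι → Bool) → ℝ) : Prop :=
  f ∈ Submodule.span ℝ {g : (ι → Bool) → ℝ | ∃ S : Finset ι, S.card ≤ D ∧ g = mono S}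

/-- the density of ones of `x` -/
noncomputable def dens {ι : Type} [Fintype ι] (x : ι → Bool) : ℝ :=
  (∑ i, (if x i then (1 : ℝ) else 0)) / (Fintype.card ι : ℝ)

/-- for every threshold `c` there is a polynomial of degree `≤ D`, everywhere close to `0` or `1`,
which is close to `1` if the density is `≥ c + w` and close to `0` if it is `≤ c - w` -/
def Sep (ι : Type) [Fintype ι] (D : ℕ) (w : ℝ) : Prop :=
  ∀ c : ℝ, ∃ p : (ι → Bool) → ℝ, DegLE D p ∧
    (∀ x, (0 ≤ p x ∧ p x ≤ 1 / 3) ∨ (2 / 3 ≤ p x ∧ p x ≤ 1)) ∧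
    (∀ x, c + w ≤ dens x → 2 / 3 ≤ p x) ∧ (∀ x, dens x ≤ c - w → p x ≤ 1 / 3)

/-- the multilinear extension of `f : {0,1}^κ → ℝ` to real arguments -/
noncomputable def mext {κ : Type} [Fintype κ] [DecidableEq κ] (f : (κ → Bool) → ℝ) (p : κ → ℝ) : ℝ :=
  ∑ b : κ → Bool, f b * ∏ i, (if b i then p i else 1 - p i)

/-- the leaves of the full binary tree of depth `L` -/
def Lf : ℕ → Type
  | 0 => Unit
  | (L + 1) => Lf L ⊕ Lf L

instance instDecidableEqLf : (L : ℕ) → DecidableEq (Lf L)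
  | 0 => inferInstanceAs (DecidableEq Unit)
  | (L + 1) =>
    haveI := instDecidableEqLf L
    inferInstanceAs (DecidableEq (Lf L ⊕ Lf L))

instance instFintypeLf : (L : ℕ) → Fintype (Lf L)
  | 0 => inferInstanceAs (Fintype Unit)
  | (L + 1) =>
    haveI := instFintypeLf L
    inferInstanceAs (Fintype (Lf L ⊕ Lf L))

theorem card_Lf (L : ℕ) : Fintype.card (Lf L) = 2 ^ L := by
  induction L with
  | zero => rfl
  | succ L ih =>
    have h : Fintype.card (Lf (L + 1)) = Fintype.card (Lf L ⊕ Lf L) := rfl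
    rw [h, Fintype.card_sum, ih, pow_succ]; ring

/-- the tree of rounded averages: every node carries the integer part of the average of its
two children -/
def V : (L : ℕ) → (Lf L → ℤ) → ℤ
  | 0, y => y ()
  | (L + 1), y => (V L (fun i => y (Sum.inl i)) + V L (fun i => y (Sum.inr i))) / 2

/-- the functions computed by complete binary trees of depth `L` of AND and OR gates, one
variable at every leaf -/
inductive RO : (L : ℕ) → ((Lf L → Bool) → Bool) → Prop
  | leaf : RO 0 (fun b => b ())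
  | and {L : ℕ} {f g : (Lf L → Bool) → Bool} (hf : RO L f) (hg : RO L g) :
      RO (L + 1) (fun b => f (fun i => b (Sum.inl i)) && g (fun i => b (Sum.inr i)))
  | or {L : ℕ} {f g : (Lf L → Bool) → Bool} (hf : RO L f) (hg : RO L g) :
      RO (L + 1) (fun b => f (fun i => b (Sum.inl i)) || g (fun i => b (Sum.inr i)))

/-- witnesses (feasible solution of the dual adversary program) with costs `A` and `B` -/
def Wit {ι : Type} [Fintype ι] (f : (ι → Bool) → Bool) (A B : ℝ) : Prop :=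
  ∃ u v : (ι → Bool) → ι → ℝ,
    (∀ x, f x = true → ∑ i, (u x i) ^ 2 ≤ A) ∧ (∀ y, f y = false → ∑ i, (v y i) ^ 2 ≤ B) ∧
    (∀ x y, f x = true → f y = false → ∑ i, (if x i = y i then 0 else u x i * v y i) = 1)

/-- Bernstein polynomials -/
noncomputable def bern (R k : ℕ) (t : ℝ) : ℝ := (R.choose k : ℝ) * t ^ k * (1 - t) ^ (R - k)

/-- products of Bernstein polynomials -/
noncomputable def wt {κ : Type} [Fintype κ] (R : ℕ) (k : κ → Fin (R + 1)) (y : κ → ℝ) : ℝ :=
  ∏ i, bern R (k i : ℕ) (y i)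

/-! ### The problem -/

/-- the Fourier coefficient of `f : {-1,1}^n → ℝ` at `S`, i.e. the coefficient of
`∏_{i ∈ S} x_i` in the multilinear polynomial representing `f` -/
noncomputable def fhat {n : ℕ} (f : (Fin n → ℤˣ) → ℝ) (S : Finset (Fin n)) : ℝ :=
  (∑ x : Fin n → ℤˣ, f x * ∏ i ∈ S, (((x i : ℤ)) : ℝ)) / 2 ^ n

/-- the degree of `f : {-1,1}^n → ℝ` -/
noncomputable def degree {n : ℕ} (f : (Fin n → ℤˣ) → ℝ) : ℕ := by
  classical
  exact (Finset.univ.filter (fun S : Finset (Fin n) => fhat f S ≠ 0)).sup Finset.card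

/-- the admissible functions of the problem -/
structure Admissible {n : ℕ} (f : (Fin n → ℤˣ) → ℝ) : Prop where
  range : ∀ x, (-1 ≤ f x ∧ f x ≤ -2 / 3) ∨ (2 / 3 ≤ f x ∧ f x ≤ 1)
  high : ∀ x : Fin n → ℤˣ, (n : ℝ) / 2 ≤ ∑ i, (((x i : ℤ)) : ℝ) → 2 / 3 ≤ f x
  low : ∀ x : Fin n → ℤˣ, ∑ i, (((x i : ℤ)) : ℝ) ≤ -((n : ℝ) / 2) → f x ≤ -2 / 3

/-- the least degree `D(n)` of an admissible function on `{-1,1}^n` -/
noncomputable def Dn (n : ℕ) : ℕ :=
  sInf {d : ℕ | ∃ f : (Fin n → ℤˣ) → ℝ, Admissible f ∧ degree f = d}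

end AMaj
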