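import Pool.Agent.H559R11.AM.Alg

/-!
# The multilinear extension
-/

namespace AMaj

theorem mext_mono {κ : Type} [Fintype κ] [DecidableEq κ] (S : Finset κ) (p : κ → ℝ) :
    mext (mono S) p = ∏ i ∈ S, p i := by
  unfold mext mono
  have h1 : ∀ b : κ → Bool, (∏ i ∈ S, (if b i then (1 : ℝ) else 0)) *
      ∏ i, (if b i then p i else 1 - p i) =
      ∏ i, ((if i ∈ S then (if b i then (1 : ℝ) else 0) else 1) *
        (if b i then p i else 1 - p i)) := by
    intro b
    rw [Finset.prod_mul_distrib]
    congr 1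
    rw [Finset.prod_ite_mem, Finset.univ_inter]
  simp_rw [h1]
  have h2 := Finset.prod_univ_sum (fun _ : κ => (Finset.univ : Finset Bool))
    (fun i c => (if i ∈ S then (if c then (1 : ℝ) else 0) else 1) *
        (if c then p i else 1 - p i))
  rw [Fintype.piFinset_univ] at h2
  rw [← h2]
  have h3 : ∀ i : κ, ∑ c : Bool, ((if i ∈ S then (if c then (1 : ℝ) else 0) else 1) *
        (if c then p i else 1 - p i)) = if i ∈ S then p i else 1 := by
    intro i
    rw [Fintype.sum_bool]
    by_cases h : i ∈ S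
    · simp [h]
    · simp [h]
  simp_rw [h3]
  rw [Finset.prod_ite, Finset.prod_const_one, mul_one]
  congr 1
  ext i; simp

theorem mext_weights {κ : Type} [Fintype κ] [DecidableEq κ] (p : κ → ℝ) :
    ∑ b : κ → Bool, ∏ i, (if b i then p i else 1 - p i) = 1 := by
  have h := mext_mono (∅ : Finset κ) p
  unfold mext mono at h
  simpa using h

theorem mext_weight_nonneg {κ : Type} [Fintype κ] {p : κ → ℝ}
    (hp : ∀ i, 0 ≤ p i ∧ p i ≤ 1) (b : κ → Bool) :
    0 ≤ ∏ i, (if b i then p i else 1 - p i) := by
  refine Finset.prod_nonneg fun i _ => ?_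
  split_ifs
  · exact (hp i).1
  · linarith [(hp i).2]

theorem DegLE.mext {ι κ : Type} [Fintype ι] [Fintype κ] [DecidableEq κ] {k D : ℕ}
    {f : (κ → Bool) → ℝ} (hf : DegLE k f) (A : κ → (ι → Bool) → ℝ) (hA : ∀ i, DegLE D (A i)) :
    DegLE (k * D) (fun x => mext f (fun i => A i x)) := by
  unfold DegLE at hf
  induction hf using Submodule.span_induction with
  | mem g hg =>
    obtain ⟨S, hS, rfl⟩ := hg
    have h1 : (fun x => AMaj.mext (mono S) (fun i => A i x)) = fun x => ∏ i ∈ S, A i x := by
      funext x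
      exact mext_mono S _
    rw [h1]
    have h2 := DegLE.prod S (F := A) (d := fun _ => D) (fun i _ => hA i)
    refine h2.mono_deg ?_
    rw [Finset.sum_const, smul_eq_mul]
    exact Nat.mul_le_mul_right _ hS
  | zero =>
    have h1 : (fun x => AMaj.mext (0 : (κ → Bool) → ℝ) (fun i => A i x)) =
        fun _ : ι → Bool => (0 : ℝ) := by
      funext x
      unfold AMaj.mext
      simp
    rw [h1]
    exact DegLE.const _ _
  | add g h _ _ hg hh =>
    have h1 : (fun x => AMaj.mext (g + h) (fun i => A i x)) =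
        fun x => AMaj.mext g (fun i => A i x) + AMaj.mext h (fun i => A i x) := by
      funext x
      unfold AMaj.mext
      rw [← Finset.sum_add_distrib]
      refine Finset.sum_congr rfl fun b _ => ?_
      rw [Pi.add_apply, add_mul]
    rw [h1]
    exact DegLE.add hg hh
  | smul c g _ hg =>
    have h1 : (fun x => AMaj.mext (c • g) (fun i => A i x)) =
        fun x => c * AMaj.mext g (fun i => A i x) := by
      funext x
      unfold AMaj.mext
      rw [Finset.mul_sum]
      refine Finset.sum_congr rfl fun b _ => ?_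
      rw [Pi.smul_apply, smul_eq_mul, mul_assoc]
    rw [h1]
    exact DegLE.const_mul c hg

theorem mext_mem {κ : Type} [Fintype κ] [DecidableEq κ] {f : (κ → Bool) → ℝ}
    (hf : ∀ b, 0 ≤ f b ∧ f b ≤ 1) {p : κ → ℝ} (hp : ∀ i, 0 ≤ p i ∧ p i ≤ 1) :
    0 ≤ mext f p ∧ mext f p ≤ 1 := by
  have hw := mext_weight_nonneg hp
  unfold mext
  constructor
  · exact Finset.sum_nonneg fun b _ => mul_nonneg (hf b).1 (hw b)
  · refine le_trans (Finset.sum_le_sum fun b _ => ?_) (mext_weights p).le
    have := mul_le_mul_of_nonneg_right (hf b).2 (hw b)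
    rwa [one_mul] at this

theorem one_sub_sum_le_prod {κ : Type} (s : Finset κ) (δ : κ → ℝ)
    (h0 : ∀ i, 0 ≤ δ i) (h1 : ∀ i, δ i ≤ 1) :
    1 - ∑ i ∈ s, δ i ≤ ∏ i ∈ s, (1 - δ i) := by
  classical
  induction s using Finset.induction_on with
  | empty => simp
  | insert a s ha ih =>
    rw [Finset.sum_insert ha, Finset.prod_insert ha]
    have h3 : ∏ i ∈ s, (1 - δ i) ≤ 1 :=
      Finset.prod_le_one (fun i _ => by linarith [h1 i]) (fun i _ => by linarith [h0 i])
    have h4 : δ a * ∏ i ∈ s, (1 - δ i) ≤ δ a * 1 := mul_le_mul_of_nonneg_left h3 (h0 a)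
    linarith

theorem mext_near {κ : Type} [Fintype κ] [DecidableEq κ] {f : (κ → Bool) → ℝ}
    (hf : ∀ b, 0 ≤ f b ∧ f b ≤ 1) {p : κ → ℝ} (hp : ∀ i, 0 ≤ p i ∧ p i ≤ 1) (b : κ → Bool)
    {ε : ℝ} (hε : ∀ i, |p i - (if b i then 1 else 0)| ≤ ε) :
    |mext f p - f b| ≤ (Fintype.card κ : ℝ) * ε := by
  set w : (κ → Bool) → ℝ := fun b => ∏ i, (if b i then p i else 1 - p i) with hw
  have hw0 : ∀ b, 0 ≤ w b := mext_weight_nonneg hp
  have hw1 : ∑ b, w b = 1 := mext_weights p
  have hwb : 1 - (Fintype.card κ : ℝ) * ε ≤ w b := by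
    have h1 : w b = ∏ i, (1 - |p i - (if b i then 1 else 0)|) := by
      simp only [hw]
      refine Finset.prod_congr rfl fun i _ => ?_
      cases hb : b i with
      | true =>
        simp only [if_true]
        rw [abs_of_nonpos (by linarith [(hp i).2])]
        ring
      | false =>
        simp only [Bool.false_eq_true, if_false]
        rw [sub_zero, abs_of_nonneg (hp i).1]
    rw [h1]
    have h2 := one_sub_sum_le_prod Finset.univ (fun i => |p i - (if b i then 1 else 0)|)
      (fun i => abs_nonneg _) (fun i => by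
        rw [abs_le]
        split_ifs
        · constructor <;> linarith [(hp i).1, (hp i).2]
        · constructor <;> linarith [(hp i).1, (hp i).2])
    have h3 : ∑ i, |p i - (if b i then 1 else 0)| ≤ (Fintype.card κ : ℝ) * ε := by
      have := Finset.sum_le_card_nsmul Finset.univ (fun i => |p i - (if b i then 1 else 0)|) ε
        (fun i _ => hε i)
      rw [nsmul_eq_mul, Finset.card_univ] at this
      exact this
    linarith
  have h1 : mext f p - f b = ∑ b', w b' * (f b' - f b) := by
    unfold mext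
    simp_rw [mul_sub]
    rw [Finset.sum_sub_distrib, ← Finset.sum_mul, hw1, one_mul]
    congr 1
    exact Finset.sum_congr rfl fun b' _ => mul_comm _ _
  rw [h1]
  refine (Finset.abs_sum_le_sum_abs _ _).trans ?_
  have h2 : ∀ b', |w b' * (f b' - f b)| ≤ if b' = b then 0 else w b' := by
    intro b'
    rw [abs_mul, abs_of_nonneg (hw0 b')]
    split_ifs with h
    · rw [h, sub_self, abs_zero, mul_zero]
    · have h3 : |f b' - f b| ≤ 1 := by
        rw [abs_le]
        constructor <;> linarith [(hf b).1, (hf b).2, (hf b').1, (hf b').2]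
      have := mul_le_mul_of_nonneg_left h3 (hw0 b')
      rwa [mul_one] at this
  refine (Finset.sum_le_sum fun b' _ => h2 b').trans ?_
  have h3 : ∑ b', (if b' = b then 0 else w b') = 1 - w b := by
    have h4 : ∀ b', (if b' = b then 0 else w b') = w b' - (if b' = b then w b' else 0) := by
      intro b'; split_ifs <;> ring
    simp_rw [h4]
    rw [Finset.sum_sub_distrib, hw1, Finset.sum_ite_eq' Finset.univ b w, if_pos (Finset.mem_univ b)]
  rw [h3]
  linarith

end AMaj
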