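import Pool.Agent.H559R11.AM.Defs

/-!
# The tree of rounded averages
-/

namespace AMaj

/-- on every unit cube `V` takes two consecutive values, and the function deciding between them is
computed by a complete binary tree of AND and OR gates -/
theorem V_cube (L : ℕ) (a : Lf L → ℤ) : ∃ f : (Lf L → Bool) → Bool, RO L f ∧
    ∀ b : Lf L → Bool, V L (fun i => a i + (if b i then 1 else 0))
      = V L a + (if f b then 1 else 0) := by
  induction L with
  | zero => exact ⟨fun b => b (), RO.leaf, fun b => rfl⟩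
  | succ L ih =>
    obtain ⟨f1, h1, e1⟩ := ih (fun i => a (Sum.inl i))
    obtain ⟨f2, h2, e2⟩ := ih (fun i => a (Sum.inr i))
    by_cases hs : (V L (fun i => a (Sum.inl i)) + V L (fun i => a (Sum.inr i))) % 2 = 0
    · refine ⟨_, RO.and h1 h2, fun b => ?_⟩
      change (V L (fun i => a (Sum.inl i) + (if b (Sum.inl i) then 1 else 0)) +
        V L (fun i => a (Sum.inr i) + (if b (Sum.inr i) then 1 else 0))) / 2 =
        (V L (fun i => a (Sum.inl i)) + V L (fun i => a (Sum.inr i))) / 2 + _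
      rw [e1 (fun i => b (Sum.inl i)), e2 (fun i => b (Sum.inr i))]
      cases f1 (fun i => b (Sum.inl i)) <;> cases f2 (fun i => b (Sum.inr i)) <;>
        simp only [Bool.and_true, Bool.and_false, Bool.false_eq_true, if_true, if_false] <;> omega
    · refine ⟨_, RO.or h1 h2, fun b => ?_⟩
      change (V L (fun i => a (Sum.inl i) + (if b (Sum.inl i) then 1 else 0)) +
        V L (fun i => a (Sum.inr i) + (if b (Sum.inr i) then 1 else 0))) / 2 =
        (V L (fun i => a (Sum.inl i)) + V L (fun i => a (Sum.inr i))) / 2 + _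
      rw [e1 (fun i => b (Sum.inl i)), e2 (fun i => b (Sum.inr i))]
      cases f1 (fun i => b (Sum.inl i)) <;> cases f2 (fun i => b (Sum.inr i)) <;>
        simp only [Bool.or_true, Bool.or_false, Bool.false_eq_true, if_true, if_false] <;> omega

theorem Gad_sum_zero (F : Lf 0 → ℝ) : ∑ i, F i = F () := by
  change ∑ i : Unit, F i = F ()
  exact Fintype.sum_unique (fun i : Unit => F i)

theorem Gad_sum_succ {L : ℕ} (F : Lf (L + 1) → ℝ) :
    ∑ i, F i = ∑ i : Lf L, F (Sum.inl i) + ∑ i : Lf L, F (Sum.inr i) := by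
  change ∑ i : Lf L ⊕ Lf L, F i = _
  exact Fintype.sum_sum_type _

theorem Gad_V {L : ℕ} (y : Lf (L + 1) → ℤ) :
    V (L + 1) y = (V L (fun i => y (Sum.inl i)) + V L (fun i => y (Sum.inr i))) / 2 := rfl

theorem V_le (L : ℕ) (y : Lf L → ℤ) : (V L y : ℝ) ≤ (∑ i, (y i : ℝ)) / 2 ^ L := by
  induction L with
  | zero =>
    rw [Gad_sum_zero, pow_zero, div_one]
    exact le_rfl
  | succ L ih =>
    have h1 := ih (fun i => y (Sum.inl i))
    have h2 := ih (fun i => y (Sum.inr i))
    have h3 : 2 * V (L + 1) y ≤ V L (fun i => y (Sum.inl i)) + V L (fun i => y (Sum.inr i)) := by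
      rw [Gad_V]
      omega
    have h4 : 2 * (V (L + 1) y : ℝ) ≤
        (V L (fun i => y (Sum.inl i)) : ℝ) + (V L (fun i => y (Sum.inr i)) : ℝ) := by
      exact_mod_cast h3
    rw [Gad_sum_succ, pow_succ]
    have hp : (0 : ℝ) < 2 ^ L := by positivity
    have h5 : (∑ i : Lf L, (y (Sum.inl i) : ℝ) + ∑ i : Lf L, (y (Sum.inr i) : ℝ)) / (2 ^ L * 2) =
        ((∑ i : Lf L, (y (Sum.inl i) : ℝ)) / 2 ^ L +
          (∑ i : Lf L, (y (Sum.inr i) : ℝ)) / 2 ^ L) / 2 := by
      field_simp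
    rw [h5]
    linarith

theorem le_V (L : ℕ) (y : Lf L → ℤ) : (∑ i, (y i : ℝ)) / 2 ^ L - (L : ℝ) / 2 ≤ (V L y : ℝ) := by
  induction L with
  | zero =>
    rw [Gad_sum_zero, pow_zero, div_one]
    simp only [Nat.cast_zero, zero_div, sub_zero]
    exact le_rfl
  | succ L ih =>
    have h1 := ih (fun i => y (Sum.inl i))
    have h2 := ih (fun i => y (Sum.inr i))
    have h3 : V L (fun i => y (Sum.inl i)) + V L (fun i => y (Sum.inr i)) - 1 ≤
        2 * V (L + 1) y := by
      rw [Gad_V]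
      omega
    have h4 : (V L (fun i => y (Sum.inl i)) : ℝ) + (V L (fun i => y (Sum.inr i)) : ℝ) - 1 ≤
        2 * (V (L + 1) y : ℝ) := by
      exact_mod_cast h3
    rw [Gad_sum_succ, pow_succ]
    have hp : (0 : ℝ) < 2 ^ L := by positivity
    have h5 : (∑ i : Lf L, (y (Sum.inl i) : ℝ) + ∑ i : Lf L, (y (Sum.inr i) : ℝ)) / (2 ^ L * 2) =
        ((∑ i : Lf L, (y (Sum.inl i) : ℝ)) / 2 ^ L +
          (∑ i : Lf L, (y (Sum.inr i) : ℝ)) / 2 ^ L) / 2 := by
      field_simp
    rw [h5]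
    push_cast
    linarith

end AMaj
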