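import Pool.Agent.H559R11.AM.Step

/-!
# The induction
-/

namespace AMaj

theorem Sep.transport {ι κ : Type} [Fintype ι] [Fintype κ] (e : κ ≃ ι) {D : ℕ} {w : ℝ}
    (h : Sep ι D w) : Sep κ D w := by
  intro c
  obtain ⟨p, h1, h2, h3, h4⟩ := h c
  have hd : ∀ x : κ → Bool, dens (fun i => x (e.symm i)) = dens x := by
    intro x
    unfold dens
    rw [Fintype.card_congr e]
    congr 1
    exact Equiv.sum_comp e.symm (fun k => if x k then (1 : ℝ) else 0)
  refine ⟨fun x => p (fun i => x (e.symm i)), ?_, fun x => h2 _, fun x hx => h3 _ ?_,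
    fun x hx => h4 _ ?_⟩
  · exact DegLE.subst h1 (fun i x => x (e.symm i)) (fun i => Or.inl ⟨e.symm i, fun x => rfl⟩)
  · rw [hd]; exact hx
  · rw [hd]; exact hx

theorem Sep.triv {ι : Type} [Fintype ι] {w : ℝ} (hw : 0 < w) :
    Sep ι (Fintype.card ι) w := by
  intro c
  refine ⟨fun x => if c ≤ dens x then 1 else 0, DegLE.all _, fun x => ?_, fun x hx => ?_,
    fun x hx => ?_⟩
  · simp only
    by_cases h : c ≤ dens x
    · rw [if_pos h]; right; norm_num
    · rw [if_neg h]; left; norm_num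
  · simp only
    rw [if_pos (by linarith)]
    norm_num
  · simp only
    rw [if_neg (by linarith)]
    norm_num

/-- the factor `exp(81 log² (a+2))` -/
noncomputable def indS (a : ℕ) : ℝ := Real.exp (81 * (Real.log ((a : ℝ) + 2)) ^ 2)

theorem one_le_indS (a : ℕ) : 1 ≤ indS a := by
  unfold indS
  exact Real.one_le_exp (by positivity)

theorem eight_le_indS (a : ℕ) : 8 ≤ indS a := by
  unfold indS
  have h1 : Real.log 2 ≤ Real.log ((a : ℝ) + 2) :=
    Real.log_le_log (by norm_num) (by linarith [Nat.cast_nonneg (α := ℝ) a])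
  have h2 : 0.69 < Real.log 2 := by linarith [Real.log_two_gt_d9]
  have h3 := Real.add_one_le_exp (81 * (Real.log ((a : ℝ) + 2)) ^ 2)
  nlinarith

theorem indS_step (a b : ℕ) (hab : 9 * (b + 2) ≤ 8 * (a + 2)) :
    ((a : ℝ) + 2) ^ 9 * indS b ≤ indS a := by
  have ha : (0 : ℝ) < (a : ℝ) + 2 := by positivity
  have hb : (0 : ℝ) < (b : ℝ) + 2 := by positivity
  have hab' : 9 * ((b : ℝ) + 2) ≤ 8 * ((a : ℝ) + 2) := by exact_mod_cast hab
  have h1 : ((a : ℝ) + 2) ^ 9 = Real.exp (9 * Real.log ((a : ℝ) + 2)) := by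
    rw [mul_comm, Real.exp_mul, Real.exp_log ha]
    norm_cast
  unfold indS
  rw [h1, ← Real.exp_add]
  refine Real.exp_le_exp.2 ?_
  have hla : 0 ≤ Real.log ((a : ℝ) + 2) := Real.log_nonneg (by linarith [Nat.cast_nonneg (α := ℝ) a])
  have hlb : 0 ≤ Real.log ((b : ℝ) + 2) := Real.log_nonneg (by linarith [Nat.cast_nonneg (α := ℝ) b])
  have h98 : 1 / 9 ≤ Real.log (9 / 8) := by
    have := Real.one_sub_inv_le_log_of_pos (show (0 : ℝ) < 9 / 8 by norm_num)
    norm_num at this ⊢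
    linarith
  have hdiff : Real.log ((b : ℝ) + 2) + Real.log (9 / 8) ≤ Real.log ((a : ℝ) + 2) := by
    rw [← Real.log_mul hb.ne' (by norm_num)]
    exact Real.log_le_log (by positivity) (by linarith)
  set x := Real.log ((a : ℝ) + 2)
  set y := Real.log ((b : ℝ) + 2)
  have h2 : 1 / 9 ≤ x - y := by linarith
  have h3 : 1 / 9 * x ≤ (x - y) * (x + y) := by
    have : 1 / 9 * (x + y) ≤ (x - y) * (x + y) :=
      mul_le_mul_of_nonneg_right h2 (by linarith)
    nlinarith
  nlinarith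

theorem ind_num (y : ℝ) (hy6 : 6 ≤ y) :
    5 * (4 * y ^ 2) + 1 + 500 * (12 * y) * (4 * y ^ 2) ≤ y ^ 9 := by
  have h9 : (6 : ℝ) ^ 6 ≤ y ^ 6 := pow_le_pow_left₀ (by norm_num) hy6 6
  have h10 : y ^ 9 = y ^ 6 * y ^ 3 := by ring
  have h11 : 0 ≤ y ^ 3 := by positivity
  have h12 : (46656 : ℝ) * y ^ 3 ≤ y ^ 9 := by
    rw [h10]
    exact mul_le_mul_of_nonneg_right (by norm_num at h9 ⊢; linarith) h11
  have h13 : 6 * y ^ 2 ≤ y ^ 3 := by
    have : y ^ 3 = y * y ^ 2 := by ring
    rw [this]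
    exact mul_le_mul_of_nonneg_right hy6 (by positivity)
  have h14 : 36 ≤ y ^ 2 := by nlinarith
  linarith

theorem ind_num2 (y Z : ℝ) (hy6 : 6 ≤ y) (hZ : 0 ≤ Z) :
    5 * (4 * y ^ 2) * Z + Z + 500 * (12 * y) * (Z * (4 * y ^ 2)) ≤ y ^ 9 * Z := by
  have h := mul_le_mul_of_nonneg_right (ind_num y hy6) hZ
  refine le_trans (le_of_eq ?_) h
  ring

theorem Sep.main : ∃ C : ℝ, 0 < C ∧ ∀ (a : ℕ) (w : ℝ), 0 < w → w ≤ 1 → ∃ D : ℕ,
    (D : ℝ) ≤ Real.sqrt (2 ^ a) * Real.exp (C * (Real.log ((a : ℝ) + 2)) ^ 2) / w ^ 2 ∧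
    Sep (Fin (2 ^ a)) D w := by
  refine ⟨81, by norm_num, ?_⟩
  intro a
  induction a using Nat.strong_induction_on with
  | _ a ih =>
    intro w hw hw1
    change ∃ D : ℕ, (D : ℝ) ≤ Real.sqrt (2 ^ a) * indS a / w ^ 2 ∧ Sep (Fin (2 ^ a)) D w
    have hw2 : 0 < w ^ 2 := by positivity
    have hw21 : w ^ 2 ≤ 1 := pow_le_one₀ hw.le hw1
    rcases lt_or_ge a 4 with ha | ha
    · refine ⟨2 ^ a, ?_, ?_⟩
      · rw [le_div_iff₀ hw2]
        have h1 : ((2 ^ a : ℕ) : ℝ) = Real.sqrt (2 ^ a) * Real.sqrt (2 ^ a) := by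
          rw [Real.mul_self_sqrt (by positivity)]
          push_cast
          ring
        have h2 : Real.sqrt (2 ^ a) ≤ 8 := by
          rw [Real.sqrt_le_left (by norm_num)]
          have : (2 : ℝ) ^ a ≤ 2 ^ 3 := pow_le_pow_right₀ (by norm_num) (by omega)
          linarith
        have h3 := eight_le_indS a
        have h4 : 0 ≤ Real.sqrt (2 ^ a) := Real.sqrt_nonneg _
        calc ((2 ^ a : ℕ) : ℝ) * w ^ 2 ≤ ((2 ^ a : ℕ) : ℝ) * 1 :=
              mul_le_mul_of_nonneg_left hw21 (by positivity)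
          _ = Real.sqrt (2 ^ a) * Real.sqrt (2 ^ a) := by rw [mul_one, h1]
          _ ≤ Real.sqrt (2 ^ a) * indS a := mul_le_mul_of_nonneg_left (h2.trans h3) h4
      · have := Sep.triv (ι := Fin (2 ^ a)) hw
        rwa [Fintype.card_fin] at this
    · set L := a / 4 with hL
      set b := a - L with hb
      have hL1 : 1 ≤ L := by omega
      have hba : b < a := by omega
      have hLb : L + b = a := by omega
      have h4L : 4 * L ≤ a := by omega
      have hw' : 0 < w / ((L : ℝ) + 6) := by positivity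
      have hw'1 : w / ((L : ℝ) + 6) ≤ 1 := by
        rw [div_le_one (by positivity)]
        linarith [Nat.cast_nonneg (α := ℝ) L]
      obtain ⟨D, hD, hSep⟩ := ih b hba _ hw' hw'1
      change (D : ℝ) ≤ Real.sqrt (2 ^ b) * indS b / (w / ((L : ℝ) + 6)) ^ 2 at hD
      obtain ⟨D', hD', hSep'⟩ := Sep.step L D w hw hSep
      refine ⟨D', ?_, ?_⟩
      · -- numerics
        have hLR : (0 : ℝ) ≤ L := Nat.cast_nonneg L
        have e1 : Real.sqrt (2 ^ L) * Real.sqrt (2 ^ b) = Real.sqrt (2 ^ a) := by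
          rw [← Real.sqrt_mul (by positivity), ← pow_add, hLb]
        have e2 : (2 : ℝ) ^ L * 2 ^ L ≤ Real.sqrt (2 ^ a) := by
          refine Real.le_sqrt_of_sq_le ?_
          rw [← pow_add, ← pow_mul]
          exact pow_le_pow_right₀ (by norm_num) (by omega)
        have e3 : (2 : ℝ) ^ L ≤ Real.sqrt (2 ^ a) := by
          have : (1 : ℝ) ≤ 2 ^ L := one_le_pow₀ (by norm_num)
          nlinarith
        have hS := one_le_indS b
        have haL : 4 * (L : ℝ) ≤ a := by exact_mod_cast h4L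
        have ha4 : (4 : ℝ) ≤ a := by exact_mod_cast ha
        have hstep := indS_step a b (by omega)
        set X := Real.sqrt (2 ^ a) with hX
        have hX0 : 0 ≤ X := Real.sqrt_nonneg _
        rw [le_div_iff₀ hw2]
        have hD2 : (D : ℝ) * w ^ 2 ≤ Real.sqrt (2 ^ b) * indS b * ((L : ℝ) + 6) ^ 2 := by
          have h5 : Real.sqrt (2 ^ b) * indS b / (w / ((L : ℝ) + 6)) ^ 2 =
              Real.sqrt (2 ^ b) * indS b * ((L : ℝ) + 6) ^ 2 / w ^ 2 := by
            field_simp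
          rw [h5, le_div_iff₀ hw2] at hD
          exact hD
        have t1 : (D' : ℝ) * w ^ 2 ≤ 5 * ((L : ℝ) + 6) ^ 2 * (2 ^ L * 2 ^ L) + 2 ^ L * w ^ 2 +
            500 * (12 * L + 53) * (Real.sqrt (2 ^ L) * (D * w ^ 2)) := by
          have h6 := mul_le_mul_of_nonneg_right hD' hw2.le
          refine h6.trans (le_of_eq ?_)
          field_simp
        have t2 : Real.sqrt (2 ^ L) * (D * w ^ 2) ≤ X * indS b * ((L : ℝ) + 6) ^ 2 := by
          have h7 := mul_le_mul_of_nonneg_left hD2 (Real.sqrt_nonneg ((2 : ℝ) ^ L))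
          refine h7.trans (le_of_eq ?_)
          rw [← e1]
          ring
        have t3 : (2 : ℝ) ^ L * w ^ 2 ≤ X := by
          have : (2 : ℝ) ^ L * w ^ 2 ≤ 2 ^ L * 1 := mul_le_mul_of_nonneg_left hw21 (by positivity)
          linarith
        have u1 : (L : ℝ) + 6 ≤ 2 * (a + 2) := by linarith
        have u2 : 12 * (L : ℝ) + 53 ≤ 12 * (a + 2) := by linarith
        have u3 : ((L : ℝ) + 6) ^ 2 ≤ 4 * (a + 2) ^ 2 := by
          have : ((L : ℝ) + 6) ^ 2 ≤ (2 * (a + 2)) ^ 2 := pow_le_pow_left₀ (by positivity) u1 2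
          linarith
        have t4 : (D' : ℝ) * w ^ 2 ≤ 5 * (4 * (a + 2) ^ 2) * X + X +
            500 * (12 * (a + 2)) * (X * indS b * (4 * (a + 2) ^ 2)) := by
          refine t1.trans ?_
          refine add_le_add (add_le_add ?_ t3) ?_
          · exact mul_le_mul (by linarith) e2 (by positivity) (by positivity)
          · refine mul_le_mul (by linarith) (t2.trans ?_) (by positivity) (by positivity)
            exact mul_le_mul_of_nonneg_left u3 (by positivity)
        refine t4.trans ?_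
        have hXS : X ≤ X * indS b := by nlinarith
        have v1 : 5 * (4 * ((a : ℝ) + 2) ^ 2) * X ≤ 5 * (4 * ((a : ℝ) + 2) ^ 2) * (X * indS b) :=
          mul_le_mul_of_nonneg_left hXS (by positivity)
        have hXS0 : 0 ≤ X * indS b := le_trans hX0 hXS
        have v2 : 5 * (4 * ((a : ℝ) + 2) ^ 2) * (X * indS b) + (X * indS b) +
            500 * (12 * ((a : ℝ) + 2)) * ((X * indS b) * (4 * (a + 2) ^ 2)) ≤
            ((a : ℝ) + 2) ^ 9 * (X * indS b) := by
          exact ind_num2 _ _ (by linarith) hXS0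
        have v3 : ((a : ℝ) + 2) ^ 9 * (X * indS b) ≤ X * indS a := by
          have := mul_le_mul_of_nonneg_left hstep hX0
          linarith
        linarith
      · refine Sep.transport (Fintype.equivOfCardEq ?_) hSep'
        rw [Fintype.card_prod, card_Lf, Fintype.card_fin, Fintype.card_fin, ← pow_add, hLb]

end AMaj
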