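import Pool.Agent.H559R11.AM.Alg

/-!
# The lower bound
-/

namespace AMaj

/-- the point `z ∪ u` -/
def lowAdd {n : ℕ} (z : Fin n → Bool) (u : Finset (Fin n)) : Fin n → Bool :=
  fun i => z i || decide (i ∈ u)

theorem lowAdd_empty {n : ℕ} (z : Fin n → Bool) : lowAdd z ∅ = z := by
  funext i
  simp [lowAdd]

/-- the sum over the subsets of the set of zeros of a monomial -/
theorem low_mono {n : ℕ} (z : Fin n → Bool) (F : Finset (Fin n))
    (hF : ∀ i, i ∈ F ↔ z i = false) (S : Finset (Fin n)) (t : ℝ) :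
    ∑ u ∈ F.powerset, t ^ u.card * (1 - t) ^ (F.card - u.card) * mono S (lowAdd z u) =
      t ^ (S ∩ F).card := by
  classical
  have h1 : ∏ i ∈ F, (t + (if i ∈ S then (0 : ℝ) else (1 - t))) = t ^ (S ∩ F).card := by
    have : ∀ i ∈ F, (t + (if i ∈ S then (0 : ℝ) else (1 - t))) = if i ∈ S then t else 1 := by
      intro i _
      split_ifs <;> ring
    rw [Finset.prod_congr rfl this, Finset.prod_ite_mem, Finset.prod_const, Finset.inter_comm]
  rw [← h1, Finset.prod_add]
  refine Finset.sum_congr rfl fun u hu => ?_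
  rw [Finset.mem_powerset] at hu
  rw [Finset.prod_const, mul_assoc]
  congr 1
  have hc : (F \ u).card = F.card - u.card := Finset.card_sdiff_of_subset hu
  by_cases hS : ∀ i ∈ S, i ∈ F → i ∈ u
  · have h2 : mono S (lowAdd z u) = 1 := by
      unfold mono
      refine Finset.prod_eq_one fun i hi => ?_
      have : lowAdd z u i = true := by
        unfold lowAdd
        by_cases hz : z i = false
        · have := hS i hi ((hF i).2 hz)
          simp [this]
        · simp only [Bool.not_eq_false] at hz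
          simp [hz]
      rw [this]
      simp
    rw [h2, mul_one, ← hc]
    rw [Finset.prod_congr rfl (g := fun _ => (1 - t)), Finset.prod_const]
    intro i hi
    rw [Finset.mem_sdiff] at hi
    rw [if_neg]
    intro hiS
    exact hi.2 (hS i hiS hi.1)
  · push Not at hS
    obtain ⟨i, hiS, hiF, hiu⟩ := hS
    have h2 : mono S (lowAdd z u) = 0 := by
      unfold mono
      refine Finset.prod_eq_zero hiS ?_
      have : lowAdd z u i = false := by
        unfold lowAdd
        simp [(hF i).1 hiF, hiu]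
      rw [this]
      simp
    rw [h2, mul_zero]
    symm
    refine Finset.prod_eq_zero (i := i) ?_ ?_
    · rw [Finset.mem_sdiff]
      exact ⟨hiF, hiu⟩
    · rw [if_pos hiS]

theorem low_poly {n D : ℕ} (z : Fin n → Bool) (F : Finset (Fin n))
    (hF : ∀ i, i ∈ F ↔ z i = false) (f : (Fin n → Bool) → ℝ) (hf : DegLE D f) :
    ∃ Q : Polynomial ℝ, Q.natDegree ≤ D ∧ ∀ t : ℝ, Q.eval t =
      ∑ u ∈ F.powerset, t ^ u.card * (1 - t) ^ (F.card - u.card) * f (lowAdd z u) := by
  classical
  unfold DegLE at hf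
  induction hf using Submodule.span_induction with
  | mem g hg =>
    obtain ⟨S, hS, rfl⟩ := hg
    refine ⟨Polynomial.X ^ (S ∩ F).card, ?_, ?_⟩
    · rw [Polynomial.natDegree_X_pow]
      exact le_trans (Finset.card_le_card Finset.inter_subset_left) hS
    · intro t
      rw [low_mono z F hF S t]
      simp
  | zero => exact ⟨0, by simp, by intro t; simp⟩
  | add g h _ _ hg hh =>
    obtain ⟨P, hP, hP'⟩ := hg
    obtain ⟨Q, hQ, hQ'⟩ := hh
    refine ⟨P + Q, (Polynomial.natDegree_add_le _ _).trans (max_le hP hQ), ?_⟩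
    intro t
    rw [Polynomial.eval_add, hP', hQ', ← Finset.sum_add_distrib]
    refine Finset.sum_congr rfl fun u _ => ?_
    rw [Pi.add_apply]
    ring
  | smul a g _ hg =>
    obtain ⟨P, hP, hP'⟩ := hg
    refine ⟨Polynomial.C a * P, (Polynomial.natDegree_C_mul_le _ _).trans hP, ?_⟩
    intro t
    rw [Polynomial.eval_mul, Polynomial.eval_C, hP', Finset.mul_sum]
    refine Finset.sum_congr rfl fun u _ => ?_
    rw [Pi.smul_apply, smul_eq_mul]
    ring

/-- Markov's inequality at the endpoint -/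
theorem low_markov {p : ℕ} {P : Polynomial ℝ} (hdeg : P.natDegree ≤ p)
    (hbd : ∀ x ∈ Set.Icc (-1 : ℝ) 1, |P.eval x| ≤ 1) : P.derivative.eval 1 ≤ (p : ℝ) ^ 2 := by
  have key := Polynomial.Chebyshev.eval_iterate_derivative_le_of_forall_abs_le_one
      (n := p) (P := P) (k := 1) (x := 1) le_rfl (Polynomial.degree_le_of_natDegree_le hdeg) hbd
  simp only [Function.iterate_one,
      Polynomial.Chebyshev.T_derivative_eq_U, Polynomial.eval_mul, Polynomial.eval_intCast,
      Polynomial.Chebyshev.U_eval_one] at key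
  push_cast at key
  linarith [key]

/-- the analytic part -/
theorem low_analytic {D m : ℕ} (hm : 2 ≤ m) (Q : Polynomial ℝ) (hQ : Q.natDegree ≤ D)
    (h0 : Q.eval 0 ≤ -2 / 3) (hb : ∀ t : ℝ, 0 ≤ t → t ≤ 1 → |Q.eval t| ≤ 1)
    (hl : ∀ t : ℝ, 0 ≤ t → t ≤ 1 → 2 / 3 - 5 / 3 * (1 - t) ^ m ≤ Q.eval t) :
    (m : ℝ) / 16 ≤ (D : ℝ) ^ 2 := by
  have hm0 : (0 : ℝ) < m := by exact_mod_cast (by omega : 0 < m)
  have hm2 : (2 : ℝ) ≤ m := by exact_mod_cast hm
  have hinv : (1 : ℝ) / m ≤ 1 / 2 := one_div_le_one_div_of_le (by norm_num) hm2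
  have hinv0 : 0 < (1 : ℝ) / m := by positivity
  have h1 : (1 - 1 / (m : ℝ)) ^ m ≤ Real.exp (-1) :=
    Real.one_sub_div_pow_le_exp_neg (by linarith)
  have h2 : Real.exp (-1) < 0.368 := lt_trans Real.exp_neg_one_lt_d9 (by norm_num)
  have h3 : 0.05 ≤ Q.eval (1 / (m : ℝ)) := by
    have := hl (1 / m) hinv0.le (by linarith)
    norm_num at *
    linarith
  obtain ⟨ξ, hξ, hξ'⟩ := exists_deriv_eq_slope (fun t => Q.eval t) hinv0
    (Q.continuous.continuousOn) (Q.differentiable.differentiableOn)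
  have h4 : deriv (fun t => Q.eval t) ξ = Q.derivative.eval ξ := Q.deriv
  rw [h4] at hξ'
  have h5 : 0.71 * (m : ℝ) ≤ Q.derivative.eval ξ := by
    rw [hξ', sub_zero, div_div_eq_mul_div, div_one]
    refine mul_le_mul_of_nonneg_right ?_ hm0.le
    linarith
  have hξ1 := hξ.1
  have hξ2 := hξ.2
  set P : Polynomial ℝ := (-Q).comp
    (Polynomial.C (1 - (1 - ξ) / 2) - Polynomial.C ((1 - ξ) / 2) * Polynomial.X) with hP
  have hlin : (Polynomial.C (1 - (1 - ξ) / 2) - Polynomial.C ((1 - ξ) / 2) * Polynomial.X :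
      Polynomial ℝ).natDegree ≤ 1 := by
    refine (Polynomial.natDegree_sub_le _ _).trans ?_
    refine max_le ?_ ?_
    · rw [Polynomial.natDegree_C]; omega
    · exact (Polynomial.natDegree_C_mul_le _ _).trans Polynomial.natDegree_X_le
  have hPd : P.natDegree ≤ D := by
    rw [hP]
    refine Polynomial.natDegree_comp_le.trans ?_
    rw [Polynomial.natDegree_neg]
    calc _ ≤ D * 1 := Nat.mul_le_mul hQ hlin
      _ = D := by ring
  have hPb : ∀ x ∈ Set.Icc (-1 : ℝ) 1, |P.eval x| ≤ 1 := by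
    intro x hx
    have hx1 := hx.1
    have hx2 := hx.2
    rw [hP, Polynomial.eval_comp]
    simp only [Polynomial.eval_neg, Polynomial.eval_sub, Polynomial.eval_C, Polynomial.eval_mul,
      Polynomial.eval_X, abs_neg]
    refine hb _ ?_ ?_
    · nlinarith
    · nlinarith
  have hPm := low_markov hPd hPb
  have hder : P.derivative.eval 1 = (1 - ξ) / 2 * Q.derivative.eval ξ := by
    rw [hP, Polynomial.derivative_comp]
    simp only [Polynomial.derivative_sub, Polynomial.derivative_C, Polynomial.derivative_mul,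
      Polynomial.derivative_X, Polynomial.derivative_neg, Polynomial.eval_mul,
      Polynomial.eval_comp, Polynomial.eval_sub, Polynomial.eval_C, Polynomial.eval_X,
      Polynomial.eval_neg, Polynomial.eval_zero, Polynomial.eval_add, Polynomial.eval_one]
    have : (1 - (1 - ξ) / 2 - (1 - ξ) / 2 * 1) = ξ := by ring
    rw [this]
    ring
  rw [hder] at hPm
  have h6 : (1 : ℝ) / 4 ≤ (1 - ξ) / 2 := by linarith
  have h7 : (1 : ℝ) / 4 * (0.71 * m) ≤ (1 - ξ) / 2 * Q.derivative.eval ξ :=
    mul_le_mul h6 h5 (by positivity) (by linarith)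
  have h8 : (m : ℝ) / 16 ≤ 1 / 4 * (0.71 * m) := by nlinarith
  linarith

theorem lower (n D : ℕ) (hn : 1 ≤ n) (f : (Fin n → Bool) → ℝ) (hf : DegLE D f)
    (hr : ∀ x, (-1 ≤ f x ∧ f x ≤ -2 / 3) ∨ (2 / 3 ≤ f x ∧ f x ≤ 1))
    (hhigh : ∀ x, 3 * (n : ℝ) / 4 ≤ ∑ i, (if x i then (1 : ℝ) else 0) → 2 / 3 ≤ f x)
    (hlow : ∀ x, ∑ i, (if x i then (1 : ℝ) else 0) ≤ (n : ℝ) / 4 → f x ≤ -2 / 3) :
    Real.sqrt n / 8 ≤ (D : ℝ) := by
  classical
  have hsum : ∀ x : Fin n → Bool, ∑ i, (if x i then (1 : ℝ) else 0) =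
      ((Finset.univ.filter (fun i => x i = true)).card : ℝ) := by
    intro x
    rw [Finset.sum_boole]
  have hn0 : (0 : ℝ) < n := by exact_mod_cast hn
  -- a point with `f ≤ -2/3` and the maximal number of ones
  have hne : (Finset.univ.filter (fun x : Fin n → Bool => f x ≤ -2 / 3)).Nonempty := by
    refine ⟨fun _ => false, ?_⟩
    rw [Finset.mem_filter]
    refine ⟨Finset.mem_univ _, hlow _ ?_⟩
    simp
    positivity
  obtain ⟨z, hz, hmax⟩ := Finset.exists_max_image _
    (fun x : Fin n → Bool => (Finset.univ.filter (fun i => x i = true)).card) hne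
  rw [Finset.mem_filter] at hz
  have hfz := hz.2
  set F : Finset (Fin n) := Finset.univ.filter (fun i => z i = false) with hFdef
  have hF : ∀ i, i ∈ F ↔ z i = false := by
    intro i
    rw [hFdef, Finset.mem_filter]
    simp
  set m : ℕ := F.card with hm
  have hcard : (Finset.univ.filter (fun i => z i = true)).card + m = n := by
    have h := Finset.card_filter_add_card_filter_not (s := (Finset.univ : Finset (Fin n)))
      (fun i => z i = true)
    rw [Finset.card_univ, Fintype.card_fin] at h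
    have h2 : F = Finset.univ.filter (fun i => ¬ z i = true) := by
      rw [hFdef]
      ext i
      simp
    rw [hm, h2]
    exact h
  have hmn : (n : ℝ) / 4 < m := by
    by_contra hcon
    push Not at hcon
    have h1 : 3 * (n : ℝ) / 4 ≤ ∑ i, (if z i then (1 : ℝ) else 0) := by
      rw [hsum]
      have h2 : ((Finset.univ.filter (fun i => z i = true)).card : ℝ) + m = n := by
        exact_mod_cast hcard
      linarith
    have := hhigh z h1
    linarith
  have hm1 : 1 ≤ m := by
    by_contra hcon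
    have : m = 0 := by omega
    rw [this] at hmn
    simp at hmn
    linarith
  have hup : ∀ u ⊆ F, u.Nonempty → 2 / 3 ≤ f (lowAdd z u) := by
    intro u hu hune
    rcases hr (lowAdd z u) with h | h
    · exfalso
      have h1 : lowAdd z u ∈ Finset.univ.filter (fun x : Fin n → Bool => f x ≤ -2 / 3) := by
        rw [Finset.mem_filter]
        exact ⟨Finset.mem_univ _, h.2⟩
      have h2 := hmax _ h1
      have h3 : (Finset.univ.filter (fun i => z i = true)) ⊂
          (Finset.univ.filter (fun i => lowAdd z u i = true)) := by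
        rw [Finset.ssubset_iff_of_subset]
        · obtain ⟨i, hi⟩ := hune
          refine ⟨i, ?_, ?_⟩
          · rw [Finset.mem_filter]
            exact ⟨Finset.mem_univ _, by simp [lowAdd, hi]⟩
          · rw [Finset.mem_filter, (hF i).1 (hu hi)]
            simp
        · intro i hi
          rw [Finset.mem_filter] at hi ⊢
          exact ⟨Finset.mem_univ _, by simp [lowAdd, hi.2]⟩
      have := Finset.card_lt_card h3
      omega
    · exact h.1
  obtain ⟨Q, hQd, hQ⟩ := low_poly z F hF f hf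
  rw [← hm] at hQ
  have hw : ∀ t : ℝ, ∑ u ∈ F.powerset, t ^ u.card * (1 - t) ^ (m - u.card) = 1 := by
    intro t
    rw [hm, Finset.sum_pow_mul_eq_add_pow]
    simp
  have h0 : Q.eval 0 ≤ -2 / 3 := by
    rw [hQ, Finset.sum_eq_single ∅]
    · simp [lowAdd_empty]
      linarith
    · intro u _ hu
      have : u.card ≠ 0 := by rwa [Ne, Finset.card_eq_zero]
      rw [zero_pow this]
      ring
    · intro h
      exact absurd (Finset.empty_mem_powerset F) h
  have habs : ∀ x, |f x| ≤ 1 := by
    intro x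
    rw [abs_le]
    rcases hr x with h | h <;> constructor <;> linarith [h.1, h.2]
  have hwn : ∀ t : ℝ, 0 ≤ t → t ≤ 1 → ∀ u : Finset (Fin n),
      0 ≤ t ^ u.card * (1 - t) ^ (m - u.card) := by
    intro t ht ht' u
    have : 0 ≤ 1 - t := by linarith
    positivity
  have hb : ∀ t : ℝ, 0 ≤ t → t ≤ 1 → |Q.eval t| ≤ 1 := by
    intro t ht ht'
    rw [hQ]
    refine (Finset.abs_sum_le_sum_abs _ _).trans ?_
    refine le_trans ?_ (hw t).le
    refine Finset.sum_le_sum fun u _ => ?_
    rw [abs_mul, abs_of_nonneg (hwn t ht ht' u)]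
    calc _ ≤ t ^ u.card * (1 - t) ^ (m - u.card) * 1 :=
          mul_le_mul_of_nonneg_left (habs _) (hwn t ht ht' u)
      _ = _ := by ring
  have hl : ∀ t : ℝ, 0 ≤ t → t ≤ 1 → 2 / 3 - 5 / 3 * (1 - t) ^ m ≤ Q.eval t := by
    intro t ht ht'
    rw [hQ]
    have h1 : ∑ u ∈ F.powerset, (t ^ u.card * (1 - t) ^ (m - u.card) * (2 / 3) -
        (if u = ∅ then 5 / 3 * (1 - t) ^ m else 0)) = 2 / 3 - 5 / 3 * (1 - t) ^ m := by
      rw [Finset.sum_sub_distrib, ← Finset.sum_mul, hw t, Finset.sum_ite_eq' F.powerset ∅,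
        if_pos (Finset.empty_mem_powerset F)]
      ring
    rw [← h1]
    refine Finset.sum_le_sum fun u hu => ?_
    rw [Finset.mem_powerset] at hu
    split_ifs with hu0
    · subst hu0
      rw [lowAdd_empty]
      simp only [Finset.card_empty, pow_zero, one_mul, Nat.sub_zero]
      have h2 : 0 ≤ (1 - t) ^ m := pow_nonneg (by linarith) _
      have h3 := (abs_le.1 (habs z)).1
      nlinarith
    · rw [sub_zero]
      exact mul_le_mul_of_nonneg_left (hup u hu (Finset.nonempty_iff_ne_empty.2 hu0))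
        (hwn t ht ht' u)
  have hD1 : 1 ≤ D := by
    by_contra hcon
    have hD0 : Q.natDegree = 0 := by omega
    rw [Polynomial.natDegree_eq_zero] at hD0
    obtain ⟨c, rfl⟩ := hD0
    have h1 := hl 1 (by norm_num) le_rfl
    rw [sub_self, zero_pow (by omega), mul_zero, sub_zero, Polynomial.eval_C] at h1
    rw [Polynomial.eval_C] at h0
    linarith
  have hsq : (n : ℝ) / 64 ≤ (D : ℝ) ^ 2 := by
    rcases Nat.lt_or_ge m 2 with h | h
    · have h1 : (m : ℝ) = 1 := by exact_mod_cast (by omega : m = 1)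
      have h2 : (1 : ℝ) ≤ D := by exact_mod_cast hD1
      nlinarith
    · have h1 := low_analytic h Q hQd h0 hb hl
      linarith
  have hD0 : (0 : ℝ) ≤ D := Nat.cast_nonneg D
  have h64 : Real.sqrt n / 8 = Real.sqrt (n / 64) := by
    rw [Real.sqrt_div' _ (by norm_num)]
    congr 1
    rw [show (64 : ℝ) = 8 ^ 2 by norm_num, Real.sqrt_sq (by norm_num)]
  rw [h64]
  exact Real.sqrt_le_iff.2 ⟨hD0, hsq⟩

end AMaj
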