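import Pool.Agent.H559R11.AM.Up
import Pool.Agent.H559R11.AM.Low
import Pool.Agent.H559R11.AM.Bridge

/-!
# The theorem
-/

namespace AMaj

open Filter Topology

theorem main_sum (n : ℕ) (x : Fin n → ℤˣ) :
    ∑ i, (((x i : ℤ)) : ℝ) = 2 * (∑ i, (if decide (x i = 1) then (1 : ℝ) else 0)) - n := by
  have h : ∀ i, (((x i : ℤ)) : ℝ) = 2 * (if decide (x i = 1) then (1 : ℝ) else 0) - 1 := by
    intro i
    rcases Int.units_eq_one_or (x i) with h | h
    · rw [h]; norm_num
    · rw [h]; norm_num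
  rw [Finset.sum_congr rfl fun i _ => h i, Finset.sum_sub_distrib, ← Finset.mul_sum]
  simp

theorem main_sum' (n : ℕ) (b : Fin n → Bool) :
    ∑ i, ((((if b i then (1 : ℤˣ) else -1) : ℤˣ) : ℤ) : ℝ) =
      2 * (∑ i, (if b i then (1 : ℝ) else 0)) - n := by
  have h : ∀ i, ((((if b i then (1 : ℤˣ) else -1) : ℤˣ) : ℤ) : ℝ) =
      2 * (if b i then (1 : ℝ) else 0) - 1 := by
    intro i
    cases b i <;> norm_num
  rw [Finset.sum_congr rfl fun i _ => h i, Finset.sum_sub_distrib, ← Finset.mul_sum]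
  simp

theorem main : ∃ C : ℝ, 0 < C ∧ ∀ n : ℕ, 1 ≤ n →
    Real.sqrt n / 8 ≤ (Dn n : ℝ) ∧
    (Dn n : ℝ) ≤ Real.sqrt n * Real.exp (C * (Real.log (Real.log ((n : ℝ) + 16))) ^ 2) := by
  obtain ⟨C, hC, hup⟩ := upper
  refine ⟨C, hC, fun n hn => ?_⟩
  obtain ⟨D, p, hD, hdeg, hr, hhi, hlo⟩ := hup n hn
  -- the admissible function
  set f : (Fin n → ℤˣ) → ℝ := fun x => 2 * p (fun i => decide (x i = 1)) - 1 with hf
  have hadm : Admissible f := by
    refine ⟨fun x => ?_, fun x hx => ?_, fun x hx => ?_⟩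
    · simp only [hf]
      rcases hr (fun i => decide (x i = 1)) with ⟨h1, h2⟩ | ⟨h1, h2⟩
      · left; constructor <;> linarith
      · right; constructor <;> linarith
    · rw [main_sum] at hx
      have h := hhi (fun i => decide (x i = 1)) (by linarith)
      simp only [hf]; linarith
    · rw [main_sum] at hx
      have h := hlo (fun i => decide (x i = 1)) (by linarith)
      simp only [hf]; linarith
  have hdf : degree f ≤ D := by
    have h2 : DegLE D (fun b => 2 * p b - 1) := (hdeg.const_mul 2).sub (DegLE.const D 1)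
    exact degree_le (fun b => 2 * p b - 1) h2
  have hle : Dn n ≤ degree f := Nat.sInf_le ⟨f, hadm, rfl⟩
  constructor
  · have hne : {d : ℕ | ∃ f : (Fin n → ℤˣ) → ℝ, Admissible f ∧ degree f = d}.Nonempty :=
      ⟨_, f, hadm, rfl⟩
    obtain ⟨f', hf', hd'⟩ := Nat.sInf_mem hne
    have h1 := degLE_of_degree f'
    have hd2 : degree f' = Dn n := hd'
    rw [hd2] at h1
    refine lower n (Dn n) hn _ h1 (fun x => hf'.range _) (fun x hx => ?_) (fun x hx => ?_)
    · apply hf'.high
      rw [main_sum']; linarith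
    · apply hf'.low
      rw [main_sum']; linarith
  · refine le_trans ?_ hD
    exact_mod_cast hle.trans hdf

theorem limit (C : ℝ) (hC : 0 < C) (d : ℕ → ℝ) (h : ∀ n : ℕ, 1 ≤ n →
    Real.sqrt n / 8 ≤ d n ∧
    d n ≤ Real.sqrt n * Real.exp (C * (Real.log (Real.log ((n : ℝ) + 16))) ^ 2)) :
    Tendsto (fun n : ℕ => Real.log (d n) / Real.log n) atTop (𝓝 (1 / 2)) := by
  have hlog : Tendsto (fun n : ℕ => Real.log (n : ℝ)) atTop atTop :=
    Real.tendsto_log_atTop.comp tendsto_natCast_atTop_atTop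
  have hlog16 : Tendsto (fun n : ℕ => Real.log ((n : ℝ) + 16)) atTop atTop :=
    Real.tendsto_log_atTop.comp (tendsto_atTop_add_const_right _ _ tendsto_natCast_atTop_atTop)
  -- lower function
  have hlow : Tendsto (fun n : ℕ => 1 / 2 - Real.log 8 / Real.log (n : ℝ)) atTop (𝓝 (1 / 2)) := by
    have h1 : Tendsto (fun n : ℕ => Real.log 8 / Real.log (n : ℝ)) atTop (𝓝 0) :=
      tendsto_const_nhds.div_atTop hlog
    simpa using tendsto_const_nhds.sub h1
  -- upper function
  have hsq : Tendsto (fun y : ℝ => Real.log y ^ 2 / y) atTop (𝓝 0) := by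
    have := (Real.isLittleO_pow_log_id_atTop (n := 2)).tendsto_div_nhds_zero
    simpa using this
  have hhigh : Tendsto (fun n : ℕ => 1 / 2 + C * (2 * (Real.log (Real.log ((n : ℝ) + 16)) ^ 2 /
      Real.log ((n : ℝ) + 16)))) atTop (𝓝 (1 / 2)) := by
    have h1 := hsq.comp hlog16
    have h2 := ((h1.const_mul 2).const_mul C).const_add (1 / 2)
    simpa using h2
  refine tendsto_of_tendsto_of_tendsto_of_le_of_le' hlow hhigh ?_ ?_
  · filter_upwards [eventually_ge_atTop 2] with n hn
    have hn' : (2:ℝ) ≤ n := by exact_mod_cast hn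
    have hn0 : (0:ℝ) < n := by linarith
    have hl : 0 < Real.log n := Real.log_pos (by linarith)
    obtain ⟨h1, -⟩ := h n (by omega)
    have hs : 0 < Real.sqrt n := Real.sqrt_pos.2 hn0
    have h2 : Real.log (Real.sqrt n / 8) ≤ Real.log (d n) := Real.log_le_log (by positivity) h1
    rw [Real.log_div hs.ne' (by norm_num), Real.log_sqrt hn0.le] at h2
    rw [le_div_iff₀ hl]
    have h3 : (1 / 2 - Real.log 8 / Real.log n) * Real.log n = Real.log n / 2 - Real.log 8 := by
      field_simp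
    rw [h3]
    exact h2
  · filter_upwards [eventually_ge_atTop 16] with n hn
    have hn' : (16:ℝ) ≤ n := by exact_mod_cast hn
    have hn0 : (0:ℝ) < n := by linarith
    have hl : 0 < Real.log n := Real.log_pos (by linarith)
    obtain ⟨h0, h1⟩ := h n (by omega)
    have hs : 0 < Real.sqrt n := Real.sqrt_pos.2 hn0
    have hd : 0 < d n := lt_of_lt_of_le (by positivity) h0
    have h2 : Real.log (d n) ≤ Real.log (Real.sqrt n *
        Real.exp (C * (Real.log (Real.log ((n : ℝ) + 16))) ^ 2)) := Real.log_le_log hd h1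
    rw [Real.log_mul hs.ne' (Real.exp_pos _).ne', Real.log_exp, Real.log_sqrt hn0.le] at h2
    have hy : Real.log ((n : ℝ) + 16) ≤ 2 * Real.log n := by
      have : 2 * Real.log n = Real.log ((n:ℝ) ^ 2) := by rw [Real.log_pow]; norm_num
      rw [this]
      exact Real.log_le_log (by linarith) (by nlinarith)
    have hy0 : 0 < Real.log ((n : ℝ) + 16) := Real.log_pos (by linarith)
    rw [div_le_iff₀ hl]
    set T := Real.log (Real.log ((n : ℝ) + 16)) ^ 2 with hT
    have hT0 : 0 ≤ T := sq_nonneg _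
    have h3 : T ≤ 2 * (T / Real.log ((n : ℝ) + 16)) * Real.log n := by
      have e : 2 * (T / Real.log ((n : ℝ) + 16)) * Real.log n =
          T * (2 * Real.log n) / Real.log ((n : ℝ) + 16) := by ring
      rw [e, le_div_iff₀ hy0]
      exact mul_le_mul_of_nonneg_left hy hT0
    calc Real.log (d n) ≤ Real.log n / 2 + C * T := h2
      _ ≤ Real.log n / 2 + C * (2 * (T / Real.log ((n : ℝ) + 16)) * Real.log n) := by
          have := mul_le_mul_of_nonneg_left h3 hC.le
          linarith
      _ = (1 / 2 + C * (2 * (T / Real.log ((n : ℝ) + 16)))) * Real.log n := by ring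

end AMaj
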