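import Pool.Agent.H559R11.AM.Defs

/-!
# The spectral estimate
-/

namespace AMaj

theorem spec_proj_norm {H : Type} [NormedAddCommGroup H] [InnerProductSpace ℝ H]
    (Q : H →ₗ[ℝ] H) (hQ : Q.IsSymmetric) (hQ2 : ∀ v, Q (Q v) = Q v) (v : H) :
    ‖Q v‖ ≤ ‖v‖ := by
  have h1 : ‖Q v‖ ^ 2 = inner ℝ (Q v) v := by
    rw [← real_inner_self_eq_norm_sq, hQ v (Q v), hQ2, real_inner_comm]
  have h2 : ‖Q v‖ ^ 2 ≤ ‖Q v‖ * ‖v‖ := by
    rw [h1]; exact real_inner_le_norm _ _
  rcases eq_or_lt_of_le (norm_nonneg (Q v)) with h | h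
  · rw [← h]; exact norm_nonneg v
  · nlinarith

/-- `P = |s(ΠΔΠ) e|^2` for two symmetric projections `Π`, `Δ` of a finite-dimensional real inner
product space -/
theorem spec {H : Type} [NormedAddCommGroup H] [InnerProductSpace ℝ H] [FiniteDimensional ℝ H]
    (Q Δ : H →ₗ[ℝ] H) (hQ : Q.IsSymmetric) (hΔ : Δ.IsSymmetric)
    (hQ2 : ∀ v, Q (Q v) = Q v) (hΔ2 : ∀ v, Δ (Δ v) = Δ v)
    (e : H) (he : ‖e‖ = 1) (hQe : Q e = e) (s : Polynomial ℝ)
    (hs1 : s.eval 1 = 1) (hs : ∀ t : ℝ, 0 ≤ t → t ≤ 1 → |s.eval t| ≤ 1) :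
    ‖(Polynomial.aeval (Q ∘ₗ Δ ∘ₗ Q) s) e‖ ^ 2 ≤ 1 ∧
    (∀ ψ : H, Q ψ = ψ → Δ ψ = ψ → inner ℝ e ψ = (1 : ℝ) →
      1 / ‖ψ‖ ^ 2 ≤ ‖(Polynomial.aeval (Q ∘ₗ Δ ∘ₗ Q) s) e‖ ^ 2) ∧
    (∀ φ : H, Q φ = e → Δ φ = 0 → ∀ γ η : ℝ, 0 < γ → 0 ≤ η →
      (∀ t : ℝ, 0 ≤ t → t ≤ 1 - γ → |s.eval t| ≤ η) →
      ‖(Polynomial.aeval (Q ∘ₗ Δ ∘ₗ Q) s) e‖ ^ 2 ≤ γ * ‖φ‖ ^ 2 + η ^ 2) := by
  classical
  set T : H →ₗ[ℝ] H := Q ∘ₗ Δ ∘ₗ Q with hT
  have hTapp : ∀ v, T v = Q (Δ (Q v)) := fun v => rfl
  have hTs : T.IsSymmetric := by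
    intro x y
    rw [hTapp, hTapp, hQ, hΔ, hQ]
  set b := hTs.eigenvectorBasis (n := Module.finrank ℝ H) rfl with hb
  set l := hTs.eigenvalues (n := Module.finrank ℝ H) rfl with hl
  have hTb : ∀ i, T (b i) = l i • b i := by
    intro i
    exact hTs.apply_eigenvectorBasis (n := Module.finrank ℝ H) rfl i
  have hbn : ∀ i, ‖b i‖ = 1 := fun i => b.orthonormal.1 i
  have hbs : ∀ i, inner ℝ (b i) (b i) = (1 : ℝ) := by
    intro i; rw [real_inner_self_eq_norm_sq, hbn]; norm_num
  -- eigenvalues in [0,1]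
  have hlT : ∀ i, l i = ‖Δ (Q (b i))‖ ^ 2 := by
    intro i
    have h1 : inner ℝ (b i) (T (b i)) = l i := by
      rw [hTb, inner_smul_right, hbs, mul_one]
    rw [← h1, hTapp, ← hQ, ← real_inner_self_eq_norm_sq, hΔ, hΔ2]
  have hl0 : ∀ i, 0 ≤ l i := fun i => by rw [hlT]; positivity
  have hl1 : ∀ i, l i ≤ 1 := by
    intro i
    rw [hlT]
    have h1 := spec_proj_norm Δ hΔ hΔ2 (Q (b i))
    have h2 := spec_proj_norm Q hQ hQ2 (b i)
    rw [hbn] at h2
    have h3 : ‖Δ (Q (b i))‖ ≤ 1 := h1.trans h2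
    have h4 := norm_nonneg (Δ (Q (b i)))
    nlinarith
  set A : H →ₗ[ℝ] H := Polynomial.aeval T s with hA
  have hAb : ∀ i, A (b i) = s.eval (l i) • b i := by
    intro i
    apply Module.End.aeval_apply_of_hasEigenvector
    refine ⟨Module.End.mem_eigenspace_iff.mpr (hTb i), ?_⟩
    intro h0
    have := hbn i
    rw [h0, norm_zero] at this
    norm_num at this
  set c : Fin (Module.finrank ℝ H) → ℝ := fun i => inner ℝ (b i) e with hc
  have hce : e = ∑ i, c i • b i := (b.sum_repr' e).symm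
  have hAe : A e = ∑ i, (s.eval (l i) * c i) • b i := by
    conv_lhs => rw [hce]
    rw [map_sum]
    refine Finset.sum_congr rfl fun i _ => ?_
    rw [map_smul, hAb, smul_smul, mul_comm]
  have horth := b.orthonormal
  have hinner : ∀ (f : Fin (Module.finrank ℝ H) → ℝ) (y : H),
      inner ℝ (∑ i, f i • b i) y = ∑ i, f i * inner ℝ (b i) y := by
    intro f y
    rw [sum_inner]
    refine Finset.sum_congr rfl fun i _ => ?_
    rw [real_inner_smul_left]
  have hnorm : ∀ (f : Fin (Module.finrank ℝ H) → ℝ), ‖∑ i, f i • b i‖ ^ 2 = ∑ i, f i ^ 2 := by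
    intro f
    rw [← real_inner_self_eq_norm_sq, hinner]
    refine Finset.sum_congr rfl fun i _ => ?_
    rw [horth.inner_right_sum (fun j => f j) (Finset.mem_univ i)]
    ring
  have hc1 : ∑ i, c i ^ 2 = 1 := by
    rw [← hnorm, ← hce, he]; norm_num
  have hAn : ‖A e‖ ^ 2 = ∑ i, (s.eval (l i) * c i) ^ 2 := by
    rw [hAe, hnorm]
  have hsl : ∀ i, (s.eval (l i)) ^ 2 ≤ 1 := by
    intro i
    have := hs (l i) (hl0 i) (hl1 i)
    rw [← sq_abs]
    have h0 := abs_nonneg (s.eval (l i))
    nlinarith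
  refine ⟨?_, ?_, ?_⟩
  · rw [hAn, ← hc1]
    refine Finset.sum_le_sum fun i _ => ?_
    rw [mul_pow]
    have := hsl i
    nlinarith [sq_nonneg (c i)]
  · intro ψ hQψ hΔψ hinn
    have hTψ : T ψ = ψ := by rw [hTapp, hQψ, hΔψ, hQψ]
    have h1 : ∀ i, s.eval (l i) * inner ℝ (b i) ψ = inner ℝ (b i) ψ := by
      intro i
      have h2 : l i * inner ℝ (b i) ψ = inner ℝ (b i) ψ := by
        have := hTs (b i) ψ
        rw [hTψ, hTb, real_inner_smul_left] at this
        exact this
      by_cases h3 : inner ℝ (b i) ψ = (0 : ℝ)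
      · rw [h3, mul_zero]
      · have h4 : l i = 1 := by
          have : (l i - 1) * inner ℝ (b i) ψ = 0 := by linarith
          rcases mul_eq_zero.mp this with h5 | h5
          · linarith
          · exact absurd h5 h3
        rw [h4, hs1, one_mul]
    have h5 : inner ℝ (A e) ψ = (1 : ℝ) := by
      rw [hAe, hinner]
      have h6 : inner ℝ e ψ = ∑ i, c i * inner ℝ (b i) ψ := by
        conv_lhs => rw [hce]
        rw [hinner]
      rw [← hinn, h6]
      refine Finset.sum_congr rfl fun i _ => ?_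
      rw [mul_comm (s.eval (l i)) (c i), mul_assoc, h1]
    have h7 : (1 : ℝ) ≤ ‖A e‖ * ‖ψ‖ := by
      rw [← h5]; exact real_inner_le_norm _ _
    have h8 : 0 < ‖ψ‖ := by
      rcases eq_or_lt_of_le (norm_nonneg ψ) with h | h
      · rw [← h, mul_zero] at h7; linarith
      · exact h
    rw [div_le_iff₀ (by positivity), ← mul_pow]
    nlinarith
  · intro φ hQφ hΔφ γ η hγ hη hsη
    set I : Finset (Fin (Module.finrank ℝ H)) := Finset.univ.filter (fun i => 1 - γ < l i) with hI
    set m : ℝ := ∑ i ∈ I, c i ^ 2 with hm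
    have hm0 : 0 ≤ m := Finset.sum_nonneg fun i _ => sq_nonneg _
    have hm1 : m ≤ 1 := by
      rw [hm, ← hc1]
      exact Finset.sum_le_sum_of_subset_of_nonneg (Finset.subset_univ _) fun i _ _ => sq_nonneg _
    have hsplit : ‖A e‖ ^ 2 ≤ m + η ^ 2 := by
      rw [hAn]
      have h1 : ∀ i, (s.eval (l i) * c i) ^ 2 ≤ (if 1 - γ < l i then c i ^ 2 else 0) +
          η ^ 2 * c i ^ 2 := by
        intro i
        rw [mul_pow]
        split_ifs with h
        · have := hsl i
          have h3 : 0 ≤ η ^ 2 * c i ^ 2 := by positivity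
          nlinarith [sq_nonneg (c i)]
        · have h2 := hsη (l i) (hl0 i) (not_lt.mp h)
          have h3 : (s.eval (l i)) ^ 2 ≤ η ^ 2 := by
            rw [← sq_abs]
            exact pow_le_pow_left₀ (abs_nonneg _) h2 2
          rw [zero_add]
          exact mul_le_mul_of_nonneg_right h3 (sq_nonneg _)
      calc ∑ i, (s.eval (l i) * c i) ^ 2
          ≤ ∑ i, ((if 1 - γ < l i then c i ^ 2 else 0) + η ^ 2 * c i ^ 2) :=
            Finset.sum_le_sum fun i _ => h1 i
        _ = m + η ^ 2 := by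
            rw [Finset.sum_add_distrib, ← Finset.mul_sum, hc1, mul_one, hm, hI,
              Finset.sum_filter]
    refine hsplit.trans ?_
    have hmain : m ≤ γ * ‖φ‖ ^ 2 := by
      rcases lt_or_ge 1 γ with hγ1 | hγ1
      · have h1 := spec_proj_norm Q hQ hQ2 φ
        rw [hQφ, he] at h1
        have h2 : (1 : ℝ) ≤ ‖φ‖ ^ 2 := by nlinarith
        nlinarith
      · -- Q b_i = b_i on I
        have hQb : ∀ i ∈ I, Q (b i) = b i := by
          intro i hi
          have hpos : 0 < l i := by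
            have := (Finset.mem_filter.mp hi).2
            linarith
          have h1 : Q (T (b i)) = T (b i) := by rw [hTapp, hQ2]
          rw [hTb, map_smul] at h1
          exact smul_right_injective H hpos.ne' h1
        have hcφ : ∀ i ∈ I, inner ℝ (b i) φ = c i := by
          intro i hi
          have h1 := hQ (b i) φ
          rw [hQφ, hQb i hi] at h1
          exact h1
        set f : Fin (Module.finrank ℝ H) → ℝ := fun i => if i ∈ I then c i else 0 with hf
        set w : H := ∑ i, f i • b i with hw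
        have hQw : Q w = w := by
          rw [hw, map_sum]
          refine Finset.sum_congr rfl fun i _ => ?_
          rw [map_smul]
          by_cases hi : i ∈ I
          · rw [hQb i hi]
          · simp [hf, hi]
        have hTw : T w = ∑ i, (f i * l i) • b i := by
          rw [hw, map_sum]
          refine Finset.sum_congr rfl fun i _ => ?_
          rw [map_smul, hTb, smul_smul]
        have hfsum : ∀ g : Fin (Module.finrank ℝ H) → ℝ, ∑ i, f i * g i = ∑ i ∈ I, c i * g i := by
          intro g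
          rw [← Finset.sum_filter_add_sum_filter_not Finset.univ (fun i => i ∈ I)]
          have h1 : Finset.univ.filter (fun i => i ∈ I) = I := by ext i; simp
          rw [h1]
          have h2 : ∑ i ∈ Finset.univ.filter (fun i => ¬ i ∈ I), f i * g i = 0 := by
            refine Finset.sum_eq_zero fun i hi => ?_
            simp [hf, (Finset.mem_filter.mp hi).2]
          rw [h2, add_zero]
          refine Finset.sum_congr rfl fun i hi => ?_
          simp [hf, hi]
        have hwφ : inner ℝ w φ = m := by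
          rw [hw, hinner, hfsum, hm]
          refine Finset.sum_congr rfl fun i hi => ?_
          rw [hcφ i hi]; ring
        have hww : inner ℝ w w = m := by
          rw [real_inner_self_eq_norm_sq, hw, hnorm, hm]
          have : ∀ i, f i ^ 2 = f i * f i := fun i => sq _
          rw [Finset.sum_congr rfl (fun i _ => this i), hfsum]
          refine Finset.sum_congr rfl fun i hi => ?_
          simp [hf, hi]; ring
        have hΔw : inner ℝ (Δ w) φ = (0 : ℝ) := by
          rw [hΔ, hΔφ, inner_zero_right]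
        have hwΔw : inner ℝ w (Δ w) = ∑ i ∈ I, c i ^ 2 * l i := by
          have h1 : inner ℝ w (Δ w) = inner ℝ w (T w) := by
            rw [hTapp, ← hQ, hQw]
          rw [h1, hTw]
          conv_lhs => rw [hw]
          rw [hinner]
          have h2 : ∀ i, inner ℝ (b i) (∑ j, (f j * l j) • b j) = f i * l i := by
            intro i
            rw [horth.inner_right_sum (fun j => f j * l j) (Finset.mem_univ i)]
          rw [Finset.sum_congr rfl (fun i _ => by rw [h2 i]), hfsum]
          refine Finset.sum_congr rfl fun i hi => ?_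
          simp [hf, hi]; ring
        have hd : ‖w - Δ w‖ ^ 2 ≤ γ * m := by
          have h1 : ‖w - Δ w‖ ^ 2 = m - ∑ i ∈ I, c i ^ 2 * l i := by
            rw [← real_inner_self_eq_norm_sq, inner_sub_left, inner_sub_right, inner_sub_right,
              hww, hwΔw]
            have h2 : inner ℝ (Δ w) w = ∑ i ∈ I, c i ^ 2 * l i := by
              rw [real_inner_comm, hwΔw]
            have h3 : inner ℝ (Δ w) (Δ w) = ∑ i ∈ I, c i ^ 2 * l i := by
              rw [hΔ, hΔ2, hwΔw]
            rw [h2, h3]; ring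
          rw [h1, hm, ← Finset.sum_sub_distrib, Finset.mul_sum]
          refine Finset.sum_le_sum fun i hi => ?_
          have := (Finset.mem_filter.mp hi).2
          nlinarith [sq_nonneg (c i)]
        have hmφ : m ≤ ‖w - Δ w‖ * ‖φ‖ := by
          have h1 : inner ℝ (w - Δ w) φ = m := by
            rw [inner_sub_left, hwφ, hΔw, sub_zero]
          rw [← h1]; exact real_inner_le_norm _ _
        have hm2 : m ^ 2 ≤ γ * m * ‖φ‖ ^ 2 := by
          have h1 : m ^ 2 ≤ (‖w - Δ w‖ * ‖φ‖) ^ 2 := pow_le_pow_left₀ hm0 hmφ 2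
          rw [mul_pow] at h1
          exact h1.trans (mul_le_mul_of_nonneg_right hd (sq_nonneg _))
        rcases eq_or_lt_of_le hm0 with h | h
        · rw [← h]; positivity
        · nlinarith
    linarith

end AMaj
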