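import Pool.Agent.H559R11.AM.Alg
import Pool.Agent.H559R11.AM.Cheb
import Pool.Agent.H559R11.AM.Spec

/-!
# From witnesses to polynomials
-/

namespace AMaj

open scoped Classical in
/-- diagonal weights of the projection `Q_x` -/
noncomputable def wq {ι : Type} (x : ι → Bool) (o : Option (ι × Bool)) : ℝ :=
  match o with
  | none => 1
  | some (j, b) => if x j = b then 1 else 0

theorem wq_none {ι : Type} (x : ι → Bool) : wq x none = 1 := rfl

theorem wq_some {ι : Type} (x : ι → Bool) (j : ι) (b : Bool) :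
    wq x (some (j, b)) = if x j = b then 1 else 0 := by
  unfold wq; rfl

theorem wq_sq {ι : Type} (x : ι → Bool) (o : Option (ι × Bool)) : wq x o * wq x o = wq x o := by
  rcases o with _ | ⟨j, b⟩
  · rw [wq_none]; norm_num
  · rw [wq_some]; split_ifs <;> norm_num

variable {ι : Type} [Fintype ι]

/-- the diagonal projection -/
noncomputable def Qx (x : ι → Bool) :
    EuclideanSpace ℝ (Option (ι × Bool)) →ₗ[ℝ] EuclideanSpace ℝ (Option (ι × Bool)) where
  toFun v := WithLp.toLp 2 (fun o => wq x o * v o)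
  map_add' v w := by
    ext o
    simp only [PiLp.add_apply]
    ring
  map_smul' c v := by
    ext o
    simp only [PiLp.smul_apply, smul_eq_mul, RingHom.id_apply]
    ring

theorem Qx_apply (x : ι → Bool) (v : EuclideanSpace ℝ (Option (ι × Bool))) (o : Option (ι × Bool)) :
    Qx x v o = wq x o * v o := rfl

theorem Qx_symm (x : ι → Bool) : (Qx x).IsSymmetric := by
  intro v w
  rw [PiLp.inner_apply, PiLp.inner_apply]
  apply Finset.sum_congr rfl
  intro o _
  rw [Qx_apply, Qx_apply]
  simp only [RCLike.inner_apply, conj_trivial]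
  ring

theorem Qx_idem (x : ι → Bool) (v : EuclideanSpace ℝ (Option (ι × Bool))) :
    Qx x (Qx x v) = Qx x v := by
  ext o
  rw [Qx_apply, Qx_apply, ← mul_assoc, wq_sq]

/-- all coordinates have degree at most `d` -/
def VD (d : ℕ) (v : (ι → Bool) → EuclideanSpace ℝ (Option (ι × Bool))) : Prop :=
  ∀ o, DegLE d (fun x => v x o)

theorem VD.qx {d : ℕ} {v : (ι → Bool) → EuclideanSpace ℝ (Option (ι × Bool))} (h : VD d v) :
    VD (d + 1) (fun x => Qx x (v x)) := by
  intro o
  have e : (fun x => (Qx x (v x)) o) = fun x => v x o * wq x o := by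
    funext x; rw [Qx_apply, mul_comm]
  rw [e]
  rcases o with _ | ⟨j, b⟩
  · have e2 : (fun x : ι → Bool => v x none * wq x none) = fun x => v x none := by
      funext x; rw [wq_none, mul_one]
    rw [e2]
    exact (h none).mono_deg (Nat.le_succ d)
  · apply DegLE.mul (h _)
    cases b
    · have e2 : (fun x : ι → Bool => wq x (some (j, false))) =
          fun x => 1 - (if x j then (1:ℝ) else 0) := by
        funext x; rw [wq_some]; cases x j <;> simp
      rw [e2]
      exact DegLE.sub (DegLE.const 1 1) (DegLE.ind j)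
    · have e2 : (fun x : ι → Bool => wq x (some (j, true))) =
          fun x => (if x j then (1:ℝ) else 0) := by
        funext x; rw [wq_some]
      rw [e2]
      exact DegLE.ind j

theorem VD.lin {d : ℕ} {v : (ι → Bool) → EuclideanSpace ℝ (Option (ι × Bool))} (h : VD d v)
    (T : EuclideanSpace ℝ (Option (ι × Bool)) →ₗ[ℝ] EuclideanSpace ℝ (Option (ι × Bool))) :
    VD d (fun x => T (v x)) := by
  classical
  intro o
  have e : (fun x => (T (v x)) o) = fun x => ∑ o', (T (EuclideanSpace.single o' (1:ℝ)) o) * v x o' := by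
    funext x
    have h1 : v x = ∑ o', v x o' • EuclideanSpace.single o' (1:ℝ) := by
      ext p
      simp only [WithLp.ofLp_sum, Finset.sum_apply, PiLp.smul_apply, smul_eq_mul]
      rw [Finset.sum_eq_single p]
      · simp
      · intro b _ hb
        simp [EuclideanSpace.single_apply, hb.symm]
      · intro hp; exact absurd (Finset.mem_univ p) hp
    conv_lhs => rw [h1]
    rw [map_sum]
    simp only [map_smul, WithLp.ofLp_sum, Finset.sum_apply, PiLp.smul_apply, smul_eq_mul]
    apply Finset.sum_congr rfl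
    intro o' _
    ring
  rw [e]
  apply DegLE.sum
  intro o' _
  exact (h o').const_mul _

theorem VD.const (d : ℕ) (e : EuclideanSpace ℝ (Option (ι × Bool))) :
    VD d (fun _ : ι → Bool => e) := fun o => DegLE.const d (e o)

theorem VD.iter (Δ : EuclideanSpace ℝ (Option (ι × Bool)) →ₗ[ℝ] EuclideanSpace ℝ (Option (ι × Bool)))
    (e : EuclideanSpace ℝ (Option (ι × Bool))) (k : ℕ) :
    VD (2 * k) (fun x : ι → Bool => ((Qx x ∘ₗ Δ ∘ₗ Qx x) ^ k) e) := by
  induction k with
  | zero =>
    simp only [pow_zero]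
    exact VD.const 0 e
  | succ k ih =>
    have h1 := ((ih.qx).lin Δ).qx
    have e2 : (fun x : ι → Bool => ((Qx x ∘ₗ Δ ∘ₗ Qx x) ^ (k + 1)) e) =
        fun x => Qx x (Δ (Qx x (((Qx x ∘ₗ Δ ∘ₗ Qx x) ^ k) e))) := by
      funext x
      rw [pow_succ']
      rfl
    rw [e2]
    have e3 : 2 * (k + 1) = 2 * k + 1 + 1 := by ring
    rw [e3]
    exact h1

theorem VD.aeval (Δ : EuclideanSpace ℝ (Option (ι × Bool)) →ₗ[ℝ] EuclideanSpace ℝ (Option (ι × Bool)))
    (e : EuclideanSpace ℝ (Option (ι × Bool))) (s : Polynomial ℝ) (r : ℕ) (hr : s.natDegree ≤ r) :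
    VD (2 * r) (fun x : ι → Bool => (Polynomial.aeval (Qx x ∘ₗ Δ ∘ₗ Qx x) s) e) := by
  intro o
  have e1 : (fun x : ι → Bool => (Polynomial.aeval (Qx x ∘ₗ Δ ∘ₗ Qx x) s) e o) =
      fun x => ∑ k ∈ Finset.range (s.natDegree + 1),
        s.coeff k * (((Qx x ∘ₗ Δ ∘ₗ Qx x) ^ k) e o) := by
    funext x
    rw [Polynomial.aeval_eq_sum_range, LinearMap.sum_apply]
    simp only [LinearMap.smul_apply, WithLp.ofLp_sum, Finset.sum_apply, PiLp.smul_apply, smul_eq_mul]
  rw [e1]
  apply DegLE.sum
  intro k hk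
  apply DegLE.const_mul
  have hk' : k ≤ r := by
    rw [Finset.mem_range] at hk; omega
  exact (VD.iter Δ e k o).mono_deg (by omega)

theorem VD.normsq {d : ℕ} {v : (ι → Bool) → EuclideanSpace ℝ (Option (ι × Bool))} (h : VD d v) :
    DegLE (d + d) (fun x => ‖v x‖ ^ 2) := by
  have e : (fun x => ‖v x‖ ^ 2) = fun x => ∑ o, (v x o) * (v x o) := by
    funext x
    rw [EuclideanSpace.real_norm_sq_eq]
    apply Finset.sum_congr rfl
    intro o _
    ring
  rw [e]
  apply DegLE.sum
  intro o _
  exact (h o).mul (h o)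

/-- the vectors `ψ_x` -/
noncomputable def psi (u : (ι → Bool) → ι → ℝ) (x : ι → Bool) :
    EuclideanSpace ℝ (Option (ι × Bool)) :=
  WithLp.toLp 2 (fun o => match o with
    | none => 1
    | some (j, b) => if x j = b then u x j else 0)

/-- the vectors `φ_y` -/
noncomputable def phi (v : (ι → Bool) → ι → ℝ) (y : ι → Bool) :
    EuclideanSpace ℝ (Option (ι × Bool)) :=
  WithLp.toLp 2 (fun o => match o with
    | none => 1
    | some (j, b) => if y j = b then 0 else -(v y j))

theorem psi_none (u : (ι → Bool) → ι → ℝ) (x : ι → Bool) : psi u x none = 1 := rfl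
theorem psi_some (u : (ι → Bool) → ι → ℝ) (x : ι → Bool) (j : ι) (b : Bool) :
    psi u x (some (j, b)) = if x j = b then u x j else 0 := rfl
theorem phi_none (u : (ι → Bool) → ι → ℝ) (x : ι → Bool) : phi u x none = 1 := rfl
theorem phi_some (u : (ι → Bool) → ι → ℝ) (x : ι → Bool) (j : ι) (b : Bool) :
    phi u x (some (j, b)) = if x j = b then 0 else -(u x j) := rfl

theorem sum_opt (F : Option (ι × Bool) → ℝ) :
    ∑ o, F o = F none + ∑ j, (F (some (j, true)) + F (some (j, false))) := by
  rw [Fintype.sum_option, Fintype.sum_prod_type]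
  congr 1
  apply Finset.sum_congr rfl
  intro j _
  rw [Fintype.sum_bool]

theorem psi_norm (u : (ι → Bool) → ι → ℝ) (x : ι → Bool) :
    ‖psi u x‖ ^ 2 = 1 + ∑ j, (u x j) ^ 2 := by
  rw [EuclideanSpace.real_norm_sq_eq, sum_opt, psi_none]
  congr 1
  · norm_num
  · apply Finset.sum_congr rfl
    intro j _
    rw [psi_some, psi_some]
    cases x j <;> simp

theorem phi_norm (v : (ι → Bool) → ι → ℝ) (y : ι → Bool) :
    ‖phi v y‖ ^ 2 = 1 + ∑ j, (v y j) ^ 2 := by
  rw [EuclideanSpace.real_norm_sq_eq, sum_opt, phi_none]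
  congr 1
  · norm_num
  · apply Finset.sum_congr rfl
    intro j _
    rw [phi_some, phi_some]
    cases y j <;> simp

theorem psi_phi (u v : (ι → Bool) → ι → ℝ) (x y : ι → Bool) :
    inner ℝ (psi u x) (phi v y) = 1 - ∑ j, (if x j = y j then 0 else u x j * v y j) := by
  rw [PiLp.inner_apply]
  simp only [RCLike.inner_apply, conj_trivial]
  rw [sum_opt, psi_none, phi_none, one_mul, sub_eq_add_neg, ← Finset.sum_neg_distrib]
  congr 1
  apply Finset.sum_congr rfl
  intro j _
  rw [psi_some, psi_some, phi_some, phi_some]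
  cases x j <;> cases y j <;> simp [mul_comm]

theorem Wit.poly {ι : Type} [Fintype ι] (f : (ι → Bool) → Bool) (W : ℝ) (hW : 1 ≤ W)
    (h : Wit f (1 / 10) (10 * W)) :
    ∃ (D : ℕ) (P : (ι → Bool) → ℝ), (D : ℝ) ≤ 500 * Real.sqrt W ∧ DegLE D P ∧
      (∀ x, 0 ≤ P x ∧ P x ≤ 1) ∧ (∀ x, f x = true → 9 / 10 ≤ P x) ∧
      (∀ x, f x = false → P x ≤ 1 / 10) := by
  classical
  obtain ⟨u, v, hu, hv, huv⟩ := h
  set ρ : ℝ := Real.sqrt (1 + 10 * W) with hρ
  have hρ2 : ρ ^ 2 = 1 + 10 * W := Real.sq_sqrt (by linarith)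
  have hρ0 : 0 < ρ := Real.sqrt_pos.mpr (by linarith)
  have hρ3 : 3 ≤ ρ := by
    rw [hρ]; apply Real.le_sqrt_of_sq_le; linarith
  set γ : ℝ := 1 / (100 * ρ ^ 2) with hγ
  have hγ0 : 0 < γ := by positivity
  set r : ℕ := ⌈30 * ρ⌉₊ with hr
  have hr1 : 30 * ρ ≤ (r : ℝ) := Nat.le_ceil _
  have hr2 : (r : ℝ) < 30 * ρ + 1 := Nat.ceil_lt_add_one (by positivity)
  have hrg : 9 ≤ (r : ℝ) ^ 2 * γ := by
    have h1 : (30 * ρ) ^ 2 ≤ (r : ℝ) ^ 2 := pow_le_pow_left₀ (by positivity) hr1 2
    calc (9:ℝ) = (30 * ρ) ^ 2 * γ := by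
          rw [hγ]; field_simp; norm_num
      _ ≤ _ := mul_le_mul_of_nonneg_right h1 hγ0.le
  have hγ2 : γ ≤ 1 / 2 := by
    rw [hγ]
    apply one_div_le_one_div_of_le (by norm_num)
    nlinarith
  obtain ⟨s, hsd, hs1, hsle, hsη⟩ := exists_cheb γ hγ0 hγ2 r hrg
  -- the spaces
  set K : Submodule ℝ (EuclideanSpace ℝ (Option (ι × Bool))) :=
    Submodule.span ℝ {w | ∃ y, f y = false ∧ w = phi v y} with hK
  set Δ : EuclideanSpace ℝ (Option (ι × Bool)) →ₗ[ℝ] EuclideanSpace ℝ (Option (ι × Bool)) :=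
    (Kᗮ.starProjection).toLinearMap with hΔ
  have hΔsym : Δ.IsSymmetric := by
    intro a b
    exact Submodule.inner_starProjection_left_eq_right _ a b
  have hΔ2 : ∀ w, Δ (Δ w) = Δ w := by
    intro w
    have := (Kᗮ.isIdempotentElem_starProjection)
    have h2 := congrArg (fun T => T w) this.eq
    exact h2
  set e0 : EuclideanSpace ℝ (Option (ι × Bool)) := EuclideanSpace.single none (1:ℝ) with he0
  have he : ‖e0‖ = 1 := by rw [he0]; simp
  have e0_none : e0 none = 1 := by rw [he0]; simp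
  have e0_some : ∀ p, e0 (some p) = 0 := by intro p; rw [he0]; simp
  have hQe : ∀ x : ι → Bool, Qx x e0 = e0 := by
    intro x
    ext o
    rw [Qx_apply]
    rcases o with _ | p
    · rw [wq_none, one_mul]
    · rw [e0_some, mul_zero]
  have hsp := fun x : ι → Bool => spec (Qx x) Δ (Qx_symm x) hΔsym (Qx_idem x) hΔ2 e0 he (hQe x) s
    hs1 hsle
  refine ⟨2 * r + 2 * r, fun x => ‖(Polynomial.aeval (Qx x ∘ₗ Δ ∘ₗ Qx x) s) e0‖ ^ 2,
    ?_, ?_, ?_, ?_, ?_⟩
  · have h1 : ρ ≤ 3.4 * Real.sqrt W := by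
      rw [hρ]
      apply Real.sqrt_le_iff.mpr
      constructor
      · positivity
      · rw [mul_pow, Real.sq_sqrt (by linarith)]
        linarith
    have h2 : (1:ℝ) ≤ Real.sqrt W := by
      rw [Real.le_sqrt' (by norm_num)]; linarith
    push_cast
    linarith
  · exact (VD.aeval Δ e0 s r hsd).normsq
  · intro x
    exact ⟨sq_nonneg _, (hsp x).1⟩
  · intro x hx
    have h1 := (hsp x).2.1 (psi u x) (by
      ext o
      rw [Qx_apply]
      rcases o with _ | ⟨j, b⟩
      · rw [wq_none, one_mul]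
      · rw [wq_some, psi_some]; split_ifs <;> simp)
      (by
        rw [hΔ]
        have : Kᗮ.starProjection (psi u x) = psi u x := by
          rw [Submodule.starProjection_eq_self_iff, hK, Submodule.mem_orthogonal]
          intro w hw
          induction hw using Submodule.span_induction with
          | mem w hw =>
            obtain ⟨y, hy, rfl⟩ := hw
            rw [real_inner_comm, psi_phi, huv x y hx hy, sub_self]
          | zero => exact inner_zero_left _
          | add a b _ _ ha hb => rw [inner_add_left, ha, hb, add_zero]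
          | smul c a _ ha => rw [inner_smul_left, ha, mul_zero]
        exact this)
      (by
        rw [he0, EuclideanSpace.inner_single_left, psi_none]
        simp)
    rw [psi_norm] at h1
    have h2 := hu x hx
    have h3 : (0:ℝ) ≤ ∑ j, (u x j) ^ 2 := Finset.sum_nonneg (fun _ _ => sq_nonneg _)
    refine le_trans ?_ h1
    rw [le_div_iff₀ (by linarith)]
    linarith
  · intro y hy
    have h1 := (hsp y).2.2 (phi v y) (by
      ext o
      rw [Qx_apply]
      rcases o with _ | ⟨j, b⟩
      · rw [wq_none, one_mul, phi_none, e0_none]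
      · rw [wq_some, phi_some, e0_some]; split_ifs <;> simp)
      (by
        rw [hΔ]
        have hmem : phi v y ∈ K := by
          rw [hK]; exact Submodule.subset_span ⟨y, hy, rfl⟩
        have : Kᗮ.starProjection (phi v y) = 0 := by
          rw [Submodule.starProjection_orthogonal']
          have h3 : K.starProjection (phi v y) = phi v y :=
            Submodule.starProjection_eq_self_iff.mpr hmem
          simp [h3]
        exact this)
      γ (1 / 10) hγ0 (by norm_num) hsη
    refine h1.trans ?_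
    rw [phi_norm]
    have h2 := hv y hy
    have h4 : γ * (1 + ∑ j, (v y j) ^ 2) ≤ γ * ρ ^ 2 := by
      apply mul_le_mul_of_nonneg_left _ hγ0.le
      rw [hρ2]; linarith
    have h5 : γ * ρ ^ 2 = 1 / 100 := by
      rw [hγ]; field_simp
    rw [h5] at h4
    linarith

end AMaj
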