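import Pool.Agent.H559R11.AM.Defs

/-!
# Witnesses for AND-OR trees
-/

namespace AMaj

theorem sum_Lf_succ {L : ℕ} (F : Lf (L + 1) → ℝ) :
    ∑ i, F i = (∑ i : Lf L, F (Sum.inl i)) + ∑ i : Lf L, F (Sum.inr i) :=
  Fintype.sum_sum_type (α₁ := Lf L) (α₂ := Lf L) F

theorem Wit.orr {L : ℕ} {f g : (Lf L → Bool) → Bool} {A B : ℝ} (hA : 0 ≤ A) (hB : 0 ≤ B)
    (hf : Wit f A B) (hg : Wit g A B) :
    Wit (ι := Lf (L + 1))
      (fun b => f (fun i => b (Sum.inl i)) || g (fun i => b (Sum.inr i))) A (B + B) := by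
  obtain ⟨u₁, v₁, hu₁, hv₁, h₁⟩ := hf
  obtain ⟨u₂, v₂, hu₂, hv₂, h₂⟩ := hg
  refine ⟨fun b => Sum.elim
      (fun i : Lf L => if f (fun i => b (Sum.inl i)) = true
        then u₁ (fun i => b (Sum.inl i)) i else 0)
      (fun i : Lf L => if f (fun i => b (Sum.inl i)) = true
        then 0 else u₂ (fun i => b (Sum.inr i)) i),
    fun b => Sum.elim (fun i : Lf L => v₁ (fun i => b (Sum.inl i)) i)
      (fun i : Lf L => v₂ (fun i => b (Sum.inr i)) i), ?_, ?_, ?_⟩
  · intro x hx
    rw [sum_Lf_succ]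
    simp only [Sum.elim_inl, Sum.elim_inr]
    by_cases hfx : f (fun i => x (Sum.inl i)) = true
    · simp only [hfx, if_true]
      simpa using hu₁ _ hfx
    · have hgx : g (fun i => x (Sum.inr i)) = true := by
        simpa [hfx] using hx
      simp only [hfx]
      simpa using hu₂ _ hgx
  · intro y hy
    rw [sum_Lf_succ]
    simp only [Sum.elim_inl, Sum.elim_inr]
    rw [Bool.or_eq_false_iff] at hy
    exact add_le_add (hv₁ _ hy.1) (hv₂ _ hy.2)
  · intro x y hx hy
    rw [Bool.or_eq_false_iff] at hy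
    rw [sum_Lf_succ]
    simp only [Sum.elim_inl, Sum.elim_inr]
    by_cases hfx : f (fun i => x (Sum.inl i)) = true
    · simp only [hfx, if_true, zero_mul, ite_self, Finset.sum_const_zero, add_zero]
      exact h₁ (fun i => x (Sum.inl i)) (fun i => y (Sum.inl i)) hfx hy.1
    · have hgx : g (fun i => x (Sum.inr i)) = true := by
        simpa [hfx] using hx
      simp only [hfx, Bool.false_eq_true, if_false, zero_mul, ite_self, Finset.sum_const_zero,
        zero_add]
      exact h₂ (fun i => x (Sum.inr i)) (fun i => y (Sum.inr i)) hgx hy.2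

theorem Wit.andd {L : ℕ} {f g : (Lf L → Bool) → Bool} {A B : ℝ} (hA : 0 ≤ A) (hB : 0 ≤ B)
    (hf : Wit f A B) (hg : Wit g A B) :
    Wit (ι := Lf (L + 1))
      (fun b => f (fun i => b (Sum.inl i)) && g (fun i => b (Sum.inr i))) (A + A) B := by
  obtain ⟨u₁, v₁, hu₁, hv₁, h₁⟩ := hf
  obtain ⟨u₂, v₂, hu₂, hv₂, h₂⟩ := hg
  refine ⟨fun b => Sum.elim (fun i : Lf L => u₁ (fun i => b (Sum.inl i)) i)
      (fun i : Lf L => u₂ (fun i => b (Sum.inr i)) i),
    fun b => Sum.elim
      (fun i : Lf L => if f (fun i => b (Sum.inl i)) = false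
        then v₁ (fun i => b (Sum.inl i)) i else 0)
      (fun i : Lf L => if f (fun i => b (Sum.inl i)) = false
        then 0 else v₂ (fun i => b (Sum.inr i)) i), ?_, ?_, ?_⟩
  · intro x hx
    rw [sum_Lf_succ]
    simp only [Sum.elim_inl, Sum.elim_inr]
    rw [Bool.and_eq_true] at hx
    exact add_le_add (hu₁ _ hx.1) (hu₂ _ hx.2)
  · intro y hy
    rw [sum_Lf_succ]
    simp only [Sum.elim_inl, Sum.elim_inr]
    by_cases hfy : f (fun i => y (Sum.inl i)) = false
    · simp only [hfy, if_true]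
      simpa using hv₁ _ hfy
    · have hgy : g (fun i => y (Sum.inr i)) = false := by
        rw [Bool.and_eq_false_iff] at hy
        exact hy.resolve_left hfy
      simp only [hfy]
      simpa using hv₂ _ hgy
  · intro x y hx hy
    rw [Bool.and_eq_true] at hx
    rw [sum_Lf_succ]
    simp only [Sum.elim_inl, Sum.elim_inr]
    by_cases hfy : f (fun i => y (Sum.inl i)) = false
    · simp only [hfy, if_true, mul_zero, ite_self, Finset.sum_const_zero, add_zero]
      exact h₁ (fun i => x (Sum.inl i)) (fun i => y (Sum.inl i)) hx.1 hfy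
    · have hgy : g (fun i => y (Sum.inr i)) = false := by
        rw [Bool.and_eq_false_iff] at hy
        exact hy.resolve_left hfy
      simp only [hfy, Bool.true_eq_false, if_false, mul_zero, ite_self, Finset.sum_const_zero,
        zero_add]
      exact h₂ (fun i => x (Sum.inr i)) (fun i => y (Sum.inr i)) hx.2 hgy

theorem RO.wit {L : ℕ} {f : (Lf L → Bool) → Bool} (h : RO L f) (A : ℝ) (hA : 0 < A) :
    Wit f A (2 ^ L / A) := by
  induction h generalizing A with
  | leaf =>
    refine ⟨fun _ _ => Real.sqrt A, fun _ _ => Real.sqrt (1 / A), ?_, ?_, ?_⟩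
    · intro x _
      have h : (∑ i : Lf 0, (Real.sqrt A) ^ 2) = (Real.sqrt A) ^ 2 :=
        Fintype.sum_unique (ι := Unit) (fun _ => (Real.sqrt A) ^ 2)
      rw [h, Real.sq_sqrt hA.le]
    · intro y _
      have h : (∑ i : Lf 0, (Real.sqrt (1 / A)) ^ 2) = (Real.sqrt (1 / A)) ^ 2 :=
        Fintype.sum_unique (ι := Unit) (fun _ => (Real.sqrt (1 / A)) ^ 2)
      rw [h, Real.sq_sqrt (by positivity)]
      simp
    · intro x y hx hy
      have h : (∑ i : Lf 0, (if x i = y i then (0 : ℝ) else Real.sqrt A * Real.sqrt (1 / A)))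
          = if x () = y () then (0 : ℝ) else Real.sqrt A * Real.sqrt (1 / A) :=
        Fintype.sum_unique (ι := Unit)
          (fun i => (if x i = y i then (0 : ℝ) else Real.sqrt A * Real.sqrt (1 / A)))
      rw [h]
      have hx' : x () = true := hx
      have hy' : y () = false := hy
      rw [hx', hy', if_neg (by simp), ← Real.sqrt_mul hA.le, mul_one_div_cancel hA.ne',
        Real.sqrt_one]
  | and hf hg ihf ihg =>
    rename_i L f g
    have h := Wit.andd (by positivity) (by positivity) (ihf (A / 2) (by positivity))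
      (ihg (A / 2) (by positivity))
    have e1 : A / 2 + A / 2 = A := by ring
    have e2 : (2 : ℝ) ^ L / (A / 2) = 2 ^ (L + 1) / A := by
      field_simp
      ring
    rw [e1, e2] at h
    exact h
  | or hf hg ihf ihg =>
    rename_i L f g
    have h := Wit.orr hA.le (by positivity) (ihf A hA) (ihg A hA)
    have e2 : (2 : ℝ) ^ L / A + 2 ^ L / A = 2 ^ (L + 1) / A := by
      rw [pow_succ]
      ring
    rw [e2] at h
    exact h

end AMaj
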