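import Pool.Agent.H559R11.AM.Ext
import Pool.Agent.H559R11.AM.Amp
import Pool.Agent.H559R11.AM.Gad
import Pool.Agent.H559R11.AM.WitRO
import Pool.Agent.H559R11.AM.WitPoly
import Pool.Agent.H559R11.AM.Bern

/-!
# The recursion step
-/

namespace AMaj

/-- the polynomials of the functions `[K₀ ≤ V(a + b)]` -/
theorem tree_poly (L : ℕ) (a : Lf L → ℤ) (K : ℤ) :
    ∃ P : (Lf L → Bool) → ℝ, DegLE ⌊500 * Real.sqrt (2 ^ L)⌋₊ P ∧ (∀ b, 0 ≤ P b ∧ P b ≤ 1) ∧
      (∀ b : Lf L → Bool, K ≤ V L (fun i => a i + (if b i then 1 else 0)) → 9 / 10 ≤ P b) ∧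
      (∀ b : Lf L → Bool, V L (fun i => a i + (if b i then 1 else 0)) < K → P b ≤ 1 / 10) := by
  obtain ⟨f, hf, hV⟩ := V_cube L a
  by_cases h1 : K ≤ V L a
  · refine ⟨fun _ => 1, DegLE.const _ _, fun b => by norm_num, fun b _ => by norm_num, ?_⟩
    intro b hb
    rw [hV b] at hb
    exfalso
    split_ifs at hb <;> omega
  by_cases h2 : V L a + 1 < K
  · refine ⟨fun _ => 0, DegLE.const _ _, fun b => by norm_num, ?_, fun b _ => by norm_num⟩
    intro b hb
    rw [hV b] at hb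
    exfalso
    split_ifs at hb <;> omega
  have hw := hf.wit (1 / 10) (by norm_num)
  have e : (2 : ℝ) ^ L / (1 / 10) = 10 * 2 ^ L := by ring
  rw [e] at hw
  obtain ⟨D, P, hD, hP, h01, hhi, hlo⟩ := Wit.poly f (2 ^ L) (one_le_pow₀ (by norm_num)) hw
  refine ⟨P, hP.mono_deg (Nat.le_floor hD), h01, ?_, ?_⟩
  · intro b hb
    apply hhi
    rw [hV b] at hb
    by_contra hcon
    simp only [Bool.not_eq_true] at hcon
    rw [hcon] at hb
    simp at hb
    omega
  · intro b hb
    apply hlo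
    rw [hV b] at hb
    by_contra hcon
    simp only [Bool.not_eq_false] at hcon
    rw [hcon] at hb
    simp at hb
    omega

/-- the density is the average of the densities of the blocks -/
theorem dens_prod {κ : Type} [Fintype κ] (L : ℕ) (x : Lf L × κ → Bool) :
    dens x = (∑ i, dens (fun j => x (i, j))) / 2 ^ L := by
  unfold dens
  rw [Fintype.card_prod, card_Lf, Fintype.sum_prod_type, ← Finset.sum_div, div_div]
  push_cast
  rw [mul_comm]

theorem dens_mem {κ : Type} [Fintype κ] (x : κ → Bool) : 0 ≤ dens x ∧ dens x ≤ 1 := by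
  unfold dens
  constructor
  · apply div_nonneg
    · exact Finset.sum_nonneg fun i _ => by split_ifs <;> norm_num
    · positivity
  · apply div_le_one_of_le₀ _ (by positivity)
    calc (∑ i, (if x i then (1 : ℝ) else 0)) ≤ ∑ _i : κ, (1 : ℝ) :=
          Finset.sum_le_sum fun i _ => by split_ifs <;> norm_num
      _ = _ := by simp

theorem Sep.step {κ : Type} [Fintype κ] [Nonempty κ] (L D : ℕ) (w : ℝ) (hw : 0 < w)
    (h : Sep κ D (w / (L + 6))) :
    ∃ D' : ℕ, (D' : ℝ) ≤ 2 ^ L * (5 * 2 ^ L * (L + 6) ^ 2 / w ^ 2 + 1)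
        + 500 * Real.sqrt (2 ^ L) * (12 * L + 53) * D ∧
      Sep (Lf L × κ) D' w := by
  classical
  have hL6 : (0 : ℝ) < (L : ℝ) + 6 := by positivity
  obtain ⟨U, hU⟩ : ∃ U : ℝ, U = 4 * w / (L + 6) := ⟨_, rfl⟩
  have hU0 : 0 < U := by rw [hU]; positivity
  have hU4 : w / (L + 6) = U / 4 := by rw [hU]; ring
  have hwU : 2 * w / U = L / 2 + 3 := by
    rw [hU]; field_simp; ring
  rw [hU4] at h
  choose p hpdeg hpval hphi hplo using fun k : ℤ => h ((k : ℝ) * U)
  obtain ⟨q, hqdeg, hq01, hqlo, hqhi⟩ := exists_amp L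
  choose P hPdeg hP01 hPhi hPlo using tree_poly L
  set R : ℕ := ⌈5 * 2 ^ L * ((L : ℝ) + 6) ^ 2 / w ^ 2⌉₊ with hR
  have hRpos : 0 < R := by
    rw [hR]; apply Nat.ceil_pos.2; positivity
  have hRR : (0 : ℝ) < R := by exact_mod_cast hRpos
  have hRle : 5 * 2 ^ L * ((L : ℝ) + 6) ^ 2 / w ^ 2 ≤ R := Nat.le_ceil _
  have hRlt : (R : ℝ) ≤ 5 * 2 ^ L * ((L : ℝ) + 6) ^ 2 / w ^ 2 + 1 :=
    (Nat.ceil_lt_add_one (by positivity)).le
  have hbadc : (2 : ℝ) ^ L / (4 * R * (U / 4) ^ 2) ≤ 1 / 20 := by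
    have h1 : 80 * 2 ^ L ≤ R * U ^ 2 := by
      have h2 : 5 * 2 ^ L * ((L : ℝ) + 6) ^ 2 / w ^ 2 * U ^ 2 = 80 * 2 ^ L := by
        rw [hU]; field_simp; ring
      rw [← h2]
      exact mul_le_mul_of_nonneg_right hRle (by positivity)
    rw [div_le_iff₀ (by positivity)]
    nlinarith
  -- facts on separators
  have hge : ∀ (k : ℤ) (z : κ → Bool), (k : ℝ) + 1 / 4 ≤ dens z / U → 2 / 3 ≤ p k z := by
    intro k z hz
    apply hphi
    rw [le_div_iff₀ hU0] at hz
    nlinarith
  have hle : ∀ (k : ℤ) (z : κ → Bool), dens z / U ≤ (k : ℝ) - 1 / 4 → p k z ≤ 1 / 3 := by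
    intro k z hz
    apply hplo
    rw [div_le_iff₀ hU0] at hz
    nlinarith
  -- the integer value of a block
  obtain ⟨Y, hY⟩ : ∃ Y : (κ → Bool) → ℤ, ∀ z, Y z = round (dens z / U) - 1
      + (if 1 / 2 ≤ p (round (dens z / U)) z then 1 else 0) := ⟨_, fun _ => rfl⟩
  have hYk : ∀ (z : κ → Bool) (k : ℤ), |dens z / U - k| ≤ 3 / 4 →
      k - 1 + (if 1 / 2 ≤ p k z then 1 else 0) = Y z := by
    intro z k hk
    rw [hY]
    have hr := abs_sub_round (dens z / U)
    obtain ⟨k0, hk0⟩ : ∃ k0 : ℤ, k0 = round (dens z / U) := ⟨_, rfl⟩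
    rw [← hk0] at hr ⊢
    rw [abs_le] at hk hr
    have h1 : k < k0 + 2 := by
      have : (k : ℝ) < (k0 : ℝ) + 2 := by linarith [hk.1, hk.2, hr.1, hr.2]
      exact_mod_cast this
    have h2 : k0 < k + 2 := by
      have : (k0 : ℝ) < (k : ℝ) + 2 := by linarith [hk.1, hk.2, hr.1, hr.2]
      exact_mod_cast this
    have h3 : k = k0 ∨ k = k0 + 1 ∨ k = k0 - 1 := by omega
    rcases h3 with h3 | h3 | h3
    · rw [h3]
    · have hk' : (k : ℝ) = (k0 : ℝ) + 1 := by rw [h3]; push_cast; ring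
      have e1 : 2 / 3 ≤ p k0 z := hge k0 z (by linarith [hk.1])
      have e2 : p k z ≤ 1 / 3 := hle k z (by linarith [hr.2])
      rw [if_neg (by linarith : ¬ (1 / 2 ≤ p k z)), if_pos (by linarith : 1 / 2 ≤ p k0 z)]
      omega
    · have hk' : (k : ℝ) = (k0 : ℝ) - 1 := by rw [h3]; push_cast; ring
      have e1 : p k0 z ≤ 1 / 3 := hle k0 z (by linarith [hk.2])
      have e2 : 2 / 3 ≤ p k z := hge k z (by linarith [hr.1])
      rw [if_pos (by linarith : (1 / 2 ≤ p k z)), if_neg (by linarith : ¬ (1 / 2 ≤ p k0 z))]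
      omega
  have hYle : ∀ z : κ → Bool, (Y z : ℝ) ≤ dens z / U + 1 / 4 := by
    intro z
    rw [hY]
    have hr := abs_sub_round (dens z / U)
    obtain ⟨k0, hk0⟩ : ∃ k0 : ℤ, k0 = round (dens z / U) := ⟨_, rfl⟩
    rw [← hk0] at hr ⊢
    rw [abs_le] at hr
    by_cases h1 : 1 / 2 ≤ p k0 z
    · rw [if_pos h1]
      push_cast
      by_contra hcon
      push Not at hcon
      have := hle k0 z (by linarith)
      linarith
    · rw [if_neg h1]
      push_cast
      linarith [hr.1]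
  have hleY : ∀ z : κ → Bool, dens z / U - 5 / 4 ≤ (Y z : ℝ) := by
    intro z
    rw [hY]
    have hr := abs_sub_round (dens z / U)
    obtain ⟨k0, hk0⟩ : ∃ k0 : ℤ, k0 = round (dens z / U) := ⟨_, rfl⟩
    rw [← hk0] at hr ⊢
    rw [abs_le] at hr
    by_cases h1 : 1 / 2 ≤ p k0 z
    · rw [if_pos h1]
      push_cast
      linarith [hr.2]
    · rw [if_neg h1]
      push_cast
      by_contra hcon
      push Not at hcon
      have := hge k0 z (by linarith)
      linarith
  refine ⟨2 ^ L * R + ⌊500 * Real.sqrt (2 ^ L)⌋₊ * ((12 * L + 53) * D), ?_, ?_⟩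
  · push_cast
    have h1 : ((⌊500 * Real.sqrt (2 ^ L)⌋₊ : ℕ) : ℝ) ≤ 500 * Real.sqrt (2 ^ L) :=
      Nat.floor_le (by positivity)
    have h2 : (2 : ℝ) ^ L * R ≤ 2 ^ L * (5 * 2 ^ L * (L + 6) ^ 2 / w ^ 2 + 1) :=
      mul_le_mul_of_nonneg_left hRlt (by positivity)
    have h3 : ((⌊500 * Real.sqrt (2 ^ L)⌋₊ : ℕ) : ℝ) * ((12 * L + 53) * D)
        ≤ 500 * Real.sqrt (2 ^ L) * ((12 * L + 53) * D) :=
      mul_le_mul_of_nonneg_right h1 (by positivity)
    calc _ ≤ 2 ^ L * (5 * 2 ^ L * ((L : ℝ) + 6) ^ 2 / w ^ 2 + 1)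
          + 500 * Real.sqrt (2 ^ L) * ((12 * L + 53) * D) := add_le_add h2 h3
      _ = _ := by ring
  intro c
  -- the threshold
  obtain ⟨K, hK⟩ : ∃ K : ℤ, K = ⌊(c - w) / U + 1 / 4⌋ + 1 := ⟨_, rfl⟩
  have hK1 : (c - w) / U + 1 / 4 < K := by
    rw [hK]; push_cast; exact Int.lt_floor_add_one _
  have hK2 : (K : ℝ) ≤ (c + w) / U - 5 / 4 - L / 2 := by
    have h1 : (K : ℝ) ≤ (c - w) / U + 1 / 4 + 1 := by
      rw [hK]; push_cast
      linarith [Int.floor_le ((c - w) / U + 1 / 4)]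
    have h2 : (c + w) / U = (c - w) / U + 2 * w / U := by
      rw [← add_div]; ring
    rw [h2, hwU]
    linarith
  -- abbreviations
  let ks : Fin (R + 1) → ℤ := fun k => round ((((k : ℕ) : ℝ) / R) / U)
  let a : (Lf L → Fin (R + 1)) → Lf L → ℤ := fun k i => ks (k i) - 1
  let y : Lf L → (Lf L × κ → Bool) → ℝ := fun i x => dens (fun j => x (i, j))
  let A : (Lf L → Fin (R + 1)) → Lf L → (Lf L × κ → Bool) → ℝ :=
    fun k i x => q.eval (p (ks (k i)) (fun j => x (i, j)))
  let F : (Lf L × κ → Bool) → ℝ := fun x =>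
    ∑ k : Lf L → Fin (R + 1), wt R k (fun i => y i x) * mext (P (a k) K) (fun i => A k i x)
  have hp01 : ∀ (k : ℤ) z, 0 ≤ p k z ∧ p k z ≤ 1 := by
    intro k z
    rcases hpval k z with h1 | h1
    · exact ⟨h1.1, by linarith [h1.2]⟩
    · exact ⟨by linarith [h1.1], h1.2⟩
  have hA01 : ∀ k i x, 0 ≤ A k i x ∧ A k i x ≤ 1 := fun k i x =>
    hq01 _ (hp01 _ _).1 (hp01 _ _).2
  have hy01 : ∀ x i, 0 ≤ y i x ∧ y i x ≤ 1 := fun x i => dens_mem _
  have hm01 : ∀ k x, 0 ≤ mext (P (a k) K) (fun i => A k i x) ∧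
      mext (P (a k) K) (fun i => A k i x) ≤ 1 := fun k x =>
    mext_mem (hP01 _ _) (fun i => hA01 k i x)
  have hw0 : ∀ k x, 0 ≤ wt R k (fun i => y i x) := fun k x => wt_nonneg R k (hy01 x)
  -- key estimate
  have key : ∀ x (k : Lf L → Fin (R + 1)),
      (∀ i, |((k i : ℕ) : ℝ) / R - y i x| ≤ U / 4) →
      (K ≤ V L (fun i => Y (fun j => x (i, j))) →
        17 / 20 ≤ mext (P (a k) K) (fun i => A k i x)) ∧
      (V L (fun i => Y (fun j => x (i, j))) < K →
        mext (P (a k) K) (fun i => A k i x) ≤ 3 / 20) := by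
    intro x k hk
    have hb : ∀ i, a k i + (if decide (1 / 2 ≤ p (ks (k i)) (fun j => x (i, j))) then 1 else 0)
        = Y (fun j => x (i, j)) := by
      intro i
      rw [← hYk (fun j => x (i, j)) (ks (k i))]
      · simp only [decide_eq_true_eq]
        rfl
      · have h1 := hk i
        have h2 := abs_sub_round ((((k i : ℕ) : ℝ) / R) / U)
        have h3 : |((k i : ℕ) : ℝ) / R / U - y i x / U| ≤ 1 / 4 := by
          rw [← sub_div, abs_div, abs_of_pos hU0, div_le_iff₀ hU0]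
          linarith
        have h4 : |y i x / U - ks (k i)| ≤ |y i x / U - ((k i : ℕ) : ℝ) / R / U|
            + |((k i : ℕ) : ℝ) / R / U - ks (k i)| := abs_sub_le _ _ _
        rw [abs_sub_comm (y i x / U) (((k i : ℕ) : ℝ) / R / U)] at h4
        have h5 : |((k i : ℕ) : ℝ) / R / U - ks (k i)| ≤ 1 / 2 := h2
        have h6 : |y i x / U - (ks (k i) : ℝ)| ≤ 3 / 4 := by linarith
        exact h6
    have hnear := mext_near (hP01 (a k) K) (fun i => hA01 k i x)
      (fun i => decide (1 / 2 ≤ p (ks (k i)) (fun j => x (i, j)))) (ε := 1 / (20 * 2 ^ L)) (by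
        intro i
        have hq1 := hA01 k i x
        rcases hpval (ks (k i)) (fun j => x (i, j)) with h1 | h1
        · have h2 : ¬ (1 / 2 ≤ p (ks (k i)) (fun j => x (i, j))) := by linarith [h1.2]
          simp only [h2, decide_false, Bool.false_eq_true, if_false, sub_zero]
          rw [abs_of_nonneg hq1.1]
          exact hqlo _ h1.1 h1.2
        · have h2 : (1 / 2 ≤ p (ks (k i)) (fun j => x (i, j))) := by linarith [h1.1]
          simp only [h2, decide_true, if_true]
          rw [abs_of_nonpos (by linarith [hq1.2])]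
          have := hqhi _ h1.1 h1.2
          have h3 : A k i x = q.eval (p (ks (k i)) (fun j => x (i, j))) := rfl
          rw [h3]
          linarith)
    rw [card_Lf] at hnear
    have hc : ((2 ^ L : ℕ) : ℝ) * (1 / (20 * 2 ^ L)) = 1 / 20 := by
      push_cast
      field_simp
    rw [hc, abs_le] at hnear
    have hfun : (fun i => a k i + (if decide (1 / 2 ≤ p (ks (k i)) (fun j => x (i, j))) then 1
        else 0)) = fun i => Y (fun j => x (i, j)) := funext hb
    constructor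
    · intro hV
      have := hPhi (a k) K (fun i => decide (1 / 2 ≤ p (ks (k i)) (fun j => x (i, j))))
        (by rw [hfun]; exact hV)
      linarith [hnear.1]
    · intro hV
      have := hPlo (a k) K (fun i => decide (1 / 2 ≤ p (ks (k i)) (fun j => x (i, j))))
        (by rw [hfun]; exact hV)
      linarith [hnear.2]
  have hbad : ∀ x, ∑ k : Lf L → Fin (R + 1),
      (if (∀ i, |((k i : ℕ) : ℝ) / R - y i x| ≤ U / 4) then 0 else wt R k (fun i => y i x))
        ≤ 1 / 20 := by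
    intro x
    have h1 := sum_wt_bad (κ := Lf L) R hRpos (hy01 x) (U / 4) (by positivity)
      (fun k => ∀ i, |((k i : ℕ) : ℝ) / R - y i x| ≤ U / 4) (fun k hk => hk)
    rw [card_Lf] at h1
    push_cast at h1
    exact h1.trans hbadc
  have hF0 : ∀ x, 0 ≤ F x := fun x =>
    Finset.sum_nonneg fun k _ => mul_nonneg (hw0 k x) (hm01 k x).1
  have hF1 : ∀ x, F x ≤ 1 := by
    intro x
    rw [← sum_wt R (fun i => y i x)]
    exact Finset.sum_le_sum fun k _ => mul_le_of_le_one_right (hw0 k x) (hm01 k x).2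
  have hFlo : ∀ x, V L (fun i => Y (fun j => x (i, j))) < K → F x ≤ 1 / 3 := by
    intro x hV
    have h1 : F x ≤ ∑ k : Lf L → Fin (R + 1), (wt R k (fun i => y i x) * (3 / 20) +
        (if (∀ i, |((k i : ℕ) : ℝ) / R - y i x| ≤ U / 4) then 0
          else wt R k (fun i => y i x))) := by
      refine Finset.sum_le_sum fun k _ => ?_
      split_ifs with hg
      · rw [add_zero]
        exact mul_le_mul_of_nonneg_left ((key x k hg).2 hV) (hw0 k x)
      · have := mul_le_of_le_one_right (hw0 k x) (hm01 k x).2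
        have h2 : 0 ≤ wt R k (fun i => y i x) * (3 / 20) := mul_nonneg (hw0 k x) (by norm_num)
        linarith
    rw [Finset.sum_add_distrib, ← Finset.sum_mul, sum_wt] at h1
    linarith [hbad x]
  have hFhi : ∀ x, K ≤ V L (fun i => Y (fun j => x (i, j))) → 2 / 3 ≤ F x := by
    intro x hV
    have h1 : ∑ k : Lf L → Fin (R + 1), (wt R k (fun i => y i x) * (17 / 20) -
        (if (∀ i, |((k i : ℕ) : ℝ) / R - y i x| ≤ U / 4) then 0
          else wt R k (fun i => y i x))) ≤ F x := by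
      refine Finset.sum_le_sum fun k _ => ?_
      split_ifs with hg
      · rw [sub_zero]
        exact mul_le_mul_of_nonneg_left ((key x k hg).1 hV) (hw0 k x)
      · have h3 := mul_nonneg (hw0 k x) (hm01 k x).1
        have h2 : wt R k (fun i => y i x) * (17 / 20) ≤ wt R k (fun i => y i x) :=
          mul_le_of_le_one_right (hw0 k x) (by norm_num)
        linarith
    rw [Finset.sum_sub_distrib, ← Finset.sum_mul, sum_wt] at h1
    linarith [hbad x]
  have hdens : ∀ x : Lf L × κ → Bool, dens x / U = (∑ i, y i x / U) / 2 ^ L := by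
    intro x
    rw [dens_prod, ← Finset.sum_div, div_div, div_div, mul_comm]
  have hcard : (∑ _i : Lf L, (1 : ℝ)) = 2 ^ L := by
    rw [Finset.sum_const, Finset.card_univ, card_Lf]; simp
  have h2L : (0 : ℝ) < 2 ^ L := by positivity
  refine ⟨F, ?_, ?_, ?_, ?_⟩
  · -- degree
    refine DegLE.sum _ fun k _ => ?_
    have h1 : DegLE (2 ^ L * R) (fun x => wt R k (fun i => y i x)) := by
      have := DegLE.wt R k y (fun i => by
        have := (DegLE.dens (ι := κ)).subst (ι := Lf L × κ) (fun j x => x (i, j))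
          (fun j => Or.inl ⟨(i, j), fun x => rfl⟩)
        exact this)
      rw [card_Lf] at this
      exact this
    have h2 : ∀ i, DegLE ((12 * L + 53) * D) (fun x => A k i x) := by
      intro i
      have h3 := (hpdeg (ks (k i))).subst (ι := Lf L × κ) (fun j x => x (i, j))
          (fun j => Or.inl ⟨(i, j), fun x => rfl⟩)
      exact (DegLE.poly q h3).mono_deg (Nat.mul_le_mul_right _ hqdeg)
    exact h1.mul (DegLE.mext (hPdeg (a k) K) (A k) h2)
  · intro x
    by_cases hV : K ≤ V L (fun i => Y (fun j => x (i, j)))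
    · exact Or.inr ⟨hFhi x hV, hF1 x⟩
    · exact Or.inl ⟨hF0 x, hFlo x (not_le.1 hV)⟩
  · intro x hx
    apply hFhi
    have h1 := le_V L (fun i => Y (fun j => x (i, j)))
    have h2 : ∑ i, y i x / U - 2 ^ L * (5 / 4) ≤ ∑ i, (Y (fun j => x (i, j)) : ℝ) := by
      calc ∑ i, y i x / U - 2 ^ L * (5 / 4) = ∑ i, (y i x / U - 5 / 4) := by
            rw [Finset.sum_sub_distrib, Finset.sum_const, Finset.card_univ, card_Lf]; simp
        _ ≤ _ := Finset.sum_le_sum fun i _ => hleY _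
    have h3 : dens x / U - 5 / 4 ≤ (∑ i, (Y (fun j => x (i, j)) : ℝ)) / 2 ^ L := by
      rw [hdens, le_div_iff₀ h2L, sub_mul, div_mul_cancel₀ _ h2L.ne']
      linarith
    have h4 : (c + w) / U ≤ dens x / U := div_le_div_of_nonneg_right hx hU0.le
    have h5 : (K : ℝ) ≤ (V L (fun i => Y (fun j => x (i, j))) : ℝ) := by linarith
    exact_mod_cast h5
  · intro x hx
    apply hFlo
    have h1 := V_le L (fun i => Y (fun j => x (i, j)))
    have h2 : ∑ i, (Y (fun j => x (i, j)) : ℝ) ≤ ∑ i, y i x / U + 2 ^ L * (1 / 4) := by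
      calc ∑ i, (Y (fun j => x (i, j)) : ℝ) ≤ ∑ i, (y i x / U + 1 / 4) :=
            Finset.sum_le_sum fun i _ => hYle _
        _ = _ := by
            rw [Finset.sum_add_distrib, Finset.sum_const, Finset.card_univ, card_Lf]; simp
    have h3 : (∑ i, (Y (fun j => x (i, j)) : ℝ)) / 2 ^ L ≤ dens x / U + 1 / 4 := by
      rw [hdens, div_le_iff₀ h2L, add_mul, div_mul_cancel₀ _ h2L.ne']
      linarith
    have h4 : dens x / U ≤ (c - w) / U := div_le_div_of_nonneg_right hx hU0.le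
    have h5 : (V L (fun i => Y (fun j => x (i, j))) : ℝ) < (K : ℝ) := by linarith
    exact_mod_cast h5

end AMaj
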