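import Pool.Agent.H559R11.AM.Ind
import Pool.Agent.H559R11.AM.Amp
import Pool.Agent.H559R11.AM.Alg

/-!
# The upper bound for all n
(written by helper246)
-/

namespace AMaj

open Finset

/-- ones of a periodic repetition -/
lemma up_sum (n : ℕ) (hn : 0 < n) (g : Fin n → ℝ) (k : ℕ) :
    ∑ t ∈ range (k * n), g ⟨t % n, Nat.mod_lt t hn⟩ = k * ∑ i, g i := by
  induction k with
  | zero => simp
  | succ k ih =>
    rw [add_mul, one_mul, Finset.sum_range_add, ih]
    have : ∑ x ∈ range n, g ⟨(k * n + x) % n, Nat.mod_lt _ hn⟩ = ∑ i, g i := by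
      rw [Finset.sum_range]
      apply Finset.sum_congr rfl
      intro i _
      congr 1
      apply Fin.ext
      simp only [Nat.mul_add_mod_self_right]
      exact Nat.mod_eq_of_lt i.isLt
    rw [this]
    push_cast
    ring

lemma up_dens (n k N : ℕ) (hn : 0 < n) (hk : k * n ≤ N) (x : Fin n → Bool) :
    ∑ t : Fin N, (if (if (t : ℕ) < k * n then x ⟨(t : ℕ) % n, Nat.mod_lt _ hn⟩ else false)
      then (1 : ℝ) else 0) = k * ∑ i, (if x i then (1 : ℝ) else 0) := by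
  rw [← up_sum n hn (fun i => if x i then (1 : ℝ) else 0) k]
  rw [Fin.sum_univ_eq_sum_range (fun t : ℕ => (if (if t < k * n then
    x ⟨t % n, Nat.mod_lt _ hn⟩ else false) = true then (1 : ℝ) else 0)) N]
  have hN : N = k * n + (N - k * n) := by omega
  rw [hN, Finset.sum_range_add]
  have h0 : ∑ t ∈ range (N - k * n), (if (if k * n + t < k * n then
      x ⟨(k * n + t) % n, Nat.mod_lt _ hn⟩ else false) = true then (1 : ℝ) else 0) = 0 := by
    apply Finset.sum_eq_zero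
    intro t _
    rw [if_neg (show ¬ (k * n + t < k * n) by omega)]
    simp
  rw [h0, add_zero]
  apply Finset.sum_congr rfl
  intro t ht
  rw [if_pos (Finset.mem_range.mp ht)]

lemma up_loglog (n : ℕ) (hn : 1 ≤ n) :
    11 / 4 ≤ Real.log ((n : ℝ) + 16) ∧ 1 ≤ Real.log (Real.log ((n : ℝ) + 16)) := by
  have hnR : (1 : ℝ) ≤ n := by exact_mod_cast hn
  have he := Real.exp_one_lt_d9
  have he0 := Real.exp_pos 1
  have h17 : Real.exp (11 / 4) ≤ 17 := by
    have h1 : Real.exp (11 / 4) ^ 4 ≤ 17 ^ 4 := by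
      rw [← Real.exp_nat_mul]
      have : ((4 : ℕ) : ℝ) * (11 / 4) = ((11 : ℕ) : ℝ) * 1 := by norm_num
      rw [this, Real.exp_nat_mul]
      calc Real.exp 1 ^ 11 ≤ (2.7182818286 : ℝ) ^ 11 := by
            apply pow_le_pow_left₀ he0.le he.le
        _ ≤ 17 ^ 4 := by norm_num
    exact le_of_pow_le_pow_left₀ (by norm_num) (by norm_num) h1
  have hlog : 11 / 4 ≤ Real.log ((n : ℝ) + 16) := by
    rw [Real.le_log_iff_exp_le (by linarith)]
    linarith
  refine ⟨hlog, ?_⟩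
  rw [Real.le_log_iff_exp_le (by linarith)]
  linarith

theorem upper : ∃ C : ℝ, 0 < C ∧ ∀ n : ℕ, 1 ≤ n → ∃ (D : ℕ) (p : (Fin n → Bool) → ℝ),
    (D : ℝ) ≤ Real.sqrt n * Real.exp (C * (Real.log (Real.log ((n : ℝ) + 16))) ^ 2) ∧
    DegLE D p ∧
    (∀ x, (0 ≤ p x ∧ p x ≤ 1 / 20) ∨ (19 / 20 ≤ p x ∧ p x ≤ 1)) ∧
    (∀ x, 3 * (n : ℝ) / 4 ≤ ∑ i, (if x i then (1 : ℝ) else 0) → 19 / 20 ≤ p x) ∧
    (∀ x, ∑ i, (if x i then (1 : ℝ) else 0) ≤ (n : ℝ) / 4 → p x ≤ 1 / 20) := by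
  obtain ⟨C, hC, hmain⟩ := Sep.main
  obtain ⟨q, hq1, hq2, hq3, hq4⟩ := exists_amp 0
  refine ⟨9 + 9 * C, by positivity, ?_⟩
  intro n hn
  have hnR : (1 : ℝ) ≤ n := by exact_mod_cast hn
  obtain ⟨a, ha1, ha2⟩ : ∃ a : ℕ, 16 * n ≤ 2 ^ a ∧ 2 ^ a < 32 * n := by
    refine ⟨Nat.clog 2 (16 * n), Nat.le_pow_clog (by norm_num) _, ?_⟩
    have h1 := Nat.pow_pred_clog_lt_self (b := 2) (by norm_num) (x := 16 * n) (by omega)
    have h2 : 0 < Nat.clog 2 (16 * n) := Nat.clog_pos (by norm_num) (by omega)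
    have h3 : 2 ^ Nat.clog 2 (16 * n) = 2 * 2 ^ (Nat.clog 2 (16 * n)).pred := by
      rw [← pow_succ']
      congr 1
      exact (Nat.succ_pred_eq_of_pos h2).symm
    rw [h3]
    omega
  obtain ⟨D0, hD0, hsep⟩ := hmain a (9 / 40) (by norm_num) (by norm_num)
  obtain ⟨p0, hp0, hp1, hp2, hp3⟩ := hsep (19 / 40)
  set k := 2 ^ a / n with hk
  have hn0 : 0 < n := hn
  have hkn1 : k * n ≤ 2 ^ a := Nat.div_mul_le_self _ _
  have hkn2 : 2 ^ a < k * n + n := by
    rw [hk]
    exact Nat.lt_div_mul_add (a := 2 ^ a) hn0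
  let σ : Fin (2 ^ a) → (Fin n → Bool) → Bool := fun t x =>
    if (t : ℕ) < k * n then x ⟨(t : ℕ) % n, Nat.mod_lt _ hn0⟩ else false
  have hσ : ∀ t, (∃ i, ∀ x, σ t x = x i) ∨ (∃ b, ∀ x, σ t x = b) := by
    intro t
    by_cases ht : (t : ℕ) < k * n
    · left
      exact ⟨⟨(t : ℕ) % n, Nat.mod_lt _ hn0⟩, fun x => by simp only [σ, if_pos ht]⟩
    · right
      exact ⟨false, fun x => by simp only [σ, if_neg ht]⟩
  have h2a : (0 : ℝ) < (2 : ℝ) ^ a := by positivity
  have hdens : ∀ x : Fin n → Bool, dens (fun t => σ t x) =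
      (k * ∑ i, (if x i then (1 : ℝ) else 0)) / 2 ^ a := by
    intro x
    unfold dens
    rw [up_dens n k (2 ^ a) hn0 hkn1 x]
    simp
  have hkR1 : (k : ℝ) * n ≤ 2 ^ a := by exact_mod_cast hkn1
  have hkR2 : (2 : ℝ) ^ a < k * n + n := by exact_mod_cast hkn2
  have haR1 : 16 * (n : ℝ) ≤ 2 ^ a := by exact_mod_cast ha1
  have haR2 : (2 : ℝ) ^ a < 32 * n := by exact_mod_cast ha2
  have hp0r : ∀ x : Fin n → Bool, 0 ≤ p0 (fun t => σ t x) ∧ p0 (fun t => σ t x) ≤ 1 := by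
    intro x
    rcases hp1 (fun t => σ t x) with h | h
    · exact ⟨h.1, by linarith [h.2]⟩
    · exact ⟨by linarith [h.1], h.2⟩
  have hq3' : ∀ t : ℝ, 0 ≤ t → t ≤ 1 / 3 → q.eval t ≤ 1 / 20 := by
    intro t h1 h2
    have := hq3 t h1 h2
    norm_num at this ⊢
    exact this
  have hq4' : ∀ t : ℝ, 2 / 3 ≤ t → t ≤ 1 → 19 / 20 ≤ q.eval t := by
    intro t h1 h2
    have := hq4 t h1 h2
    norm_num at this ⊢
    exact this
  refine ⟨53 * D0, fun x => q.eval (p0 (fun t => σ t x)), ?_, ?_, ?_, ?_, ?_⟩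
  · -- numerics
    obtain ⟨hM, hu⟩ := up_loglog n hn
    set M := Real.log ((n : ℝ) + 16) with hMdef
    set u := Real.log M with hudef
    have hMpos : 0 < M := by linarith
    have hlog2 := Real.log_two_gt_d9
    have haM : (a : ℝ) + 2 ≤ 5 * M := by
      have h1 : Real.log ((2 : ℝ) ^ a) ≤ Real.log (32 * n) :=
        Real.log_le_log h2a haR2.le
      rw [Real.log_pow] at h1
      have h2 : Real.log (32 * (n : ℝ)) = 5 * Real.log 2 + Real.log n := by
        rw [Real.log_mul (by norm_num) (by linarith)]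
        congr 1
        rw [show (32 : ℝ) = 2 ^ 5 by norm_num, Real.log_pow]
        norm_num
      have h3 : Real.log n ≤ M := Real.log_le_log (by linarith) (by linarith)
      have h4 : ((a : ℝ) - 5) * Real.log 2 ≤ M := by
        rw [h2] at h1
        linarith
      have h5 : (a : ℝ) - 5 ≤ 2 * M := by
        by_contra hcon
        rw [not_le] at hcon
        nlinarith
      linarith
    have haL : Real.log ((a : ℝ) + 2) ≤ 3 * u := by
      have ha0 : (0 : ℝ) ≤ a := Nat.cast_nonneg a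
      have h1 : Real.log ((a : ℝ) + 2) ≤ Real.log (5 * M) :=
        Real.log_le_log (by linarith) haM
      rw [Real.log_mul (by norm_num) hMpos.ne'] at h1
      have h2 : Real.log 5 ≤ 2 := by
        rw [Real.log_le_iff_le_exp (by norm_num)]
        have h3 := Real.exp_one_gt_d9
        have h4 : Real.exp 2 = Real.exp 1 * Real.exp 1 := by
          rw [← Real.exp_add]; norm_num
        rw [h4]
        nlinarith
      linarith
    have haL0 : 0 ≤ Real.log ((a : ℝ) + 2) := by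
      apply Real.log_nonneg
      have ha0 : (0 : ℝ) ≤ a := Nat.cast_nonneg a
      linarith
    have hsq : (Real.log ((a : ℝ) + 2)) ^ 2 ≤ 9 * u ^ 2 := by nlinarith
    have hs : Real.sqrt (2 ^ a) ≤ 6 * Real.sqrt n := by
      rw [show (6 : ℝ) * Real.sqrt n = Real.sqrt (36 * n) by
        rw [Real.sqrt_mul (by norm_num), show (36 : ℝ) = 6 ^ 2 by norm_num,
          Real.sqrt_sq (by norm_num)]]
      exact Real.sqrt_le_sqrt (by linarith)
    have he9 : (6360 : ℝ) ≤ Real.exp 9 := by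
      have h3 := Real.exp_one_gt_d9
      have h4 : Real.exp 9 = Real.exp 1 ^ 9 := by
        rw [← Real.exp_nat_mul]; norm_num
      rw [h4]
      calc (6360 : ℝ) ≤ 2.7182818283 ^ 9 := by norm_num
        _ ≤ _ := pow_le_pow_left₀ (by norm_num) h3.le 9
    have hE : Real.exp (C * (Real.log ((a : ℝ) + 2)) ^ 2) ≤ Real.exp (9 * C * u ^ 2) := by
      apply Real.exp_le_exp.mpr
      nlinarith
    have hE9 : Real.exp 9 ≤ Real.exp (9 * u ^ 2) := by
      apply Real.exp_le_exp.mpr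
      nlinarith
    push_cast
    calc 53 * (D0 : ℝ) ≤ 53 * (Real.sqrt (2 ^ a) *
          Real.exp (C * (Real.log ((a : ℝ) + 2)) ^ 2) / (9 / 40) ^ 2) := by
          linarith
      _ ≤ 53 * ((6 * Real.sqrt n) * Real.exp (9 * C * u ^ 2) / (9 / 40) ^ 2) := by
          have : Real.sqrt (2 ^ a) * Real.exp (C * (Real.log ((a : ℝ) + 2)) ^ 2) ≤
              (6 * Real.sqrt n) * Real.exp (9 * C * u ^ 2) :=
            mul_le_mul hs hE (Real.exp_pos _).le (by positivity)
          gcongr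
      _ ≤ 6360 * (Real.sqrt n * Real.exp (9 * C * u ^ 2)) := by
          have h0 : 0 ≤ Real.sqrt n * Real.exp (9 * C * u ^ 2) := by positivity
          have h1 : 53 * ((6 * Real.sqrt n) * Real.exp (9 * C * u ^ 2) / (9 / 40) ^ 2) =
              (53 * 6 * 1600 / 81) * (Real.sqrt n * Real.exp (9 * C * u ^ 2)) := by
            ring
          rw [h1]
          apply mul_le_mul_of_nonneg_right _ h0
          norm_num
      _ ≤ Real.exp (9 * u ^ 2) * (Real.sqrt n * Real.exp (9 * C * u ^ 2)) := by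
          apply mul_le_mul_of_nonneg_right (he9.trans hE9) (by positivity)
      _ = Real.sqrt n * Real.exp ((9 + 9 * C) * u ^ 2) := by
          rw [show (9 + 9 * C) * u ^ 2 = 9 * u ^ 2 + 9 * C * u ^ 2 by ring, Real.exp_add]
          ring
  · have h1 := DegLE.poly q (DegLE.subst hp0 σ hσ)
    apply DegLE.mono_deg h1
    apply Nat.mul_le_mul_right
    omega
  · intro x
    have h := hp0r x
    rcases hp1 (fun t => σ t x) with h' | h'
    · exact Or.inl ⟨(hq2 _ h.1 h.2).1, hq3' _ h'.1 h'.2⟩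
    · exact Or.inr ⟨hq4' _ h'.1 h'.2, (hq2 _ h.1 h.2).2⟩
  · intro x hx
    have h := hp0r x
    apply hq4' _ _ h.2
    apply hp2
    rw [hdens x, le_div_iff₀ h2a]
    have hk0 : (0 : ℝ) ≤ k := Nat.cast_nonneg k
    have h1 : (k : ℝ) * (3 * (n : ℝ) / 4) ≤ k * ∑ i, (if x i then (1 : ℝ) else 0) :=
      mul_le_mul_of_nonneg_left hx hk0
    nlinarith
  · intro x hx
    have h := hp0r x
    apply hq3' _ h.1
    apply hp3
    rw [hdens x, div_le_iff₀ h2a]
    have hk0 : (0 : ℝ) ≤ k := Nat.cast_nonneg k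
    have h1 : k * ∑ i, (if x i then (1 : ℝ) else 0) ≤ (k : ℝ) * ((n : ℝ) / 4) :=
      mul_le_mul_of_nonneg_left hx hk0
    nlinarith

end AMaj
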